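import Pool.Agent.P.MP_8513f1_al.Quad

/-! The core argument. -/

set_option autoImplicit false
set_option linter.unusedSectionVars false

namespace Pool.Agent.P.MP_8513f1_al

universe u

section Base
variable {F : Type*} [Field F] [NeZero (2 : F)]

def HA (F : Type*) [Field F] : Prop :=
  ∀ z a b c d : F, ¬ IsSquare z → a ≠ 0 → b ≠ 0 → c ≠ 0 → d ≠ 0 →
    ∃ p r y e e' : F, p ≠ 0 ∧ r ≠ 0 ∧ y ≠ 0 ∧ e ≠ 0 ∧ e' ≠ 0 ∧
      pf a * pf b - pf c * pf d = g e * (pf p * pf r) + g e' * (pf z * pf y)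

def NS (F : Type*) [Field F] : Prop := ∀ n : F, ¬ IsSquare n → ∃ m, ¬ IsSquare m ∧ Nm n m

theorem ne_of_ns {z : F} (h : ¬ IsSquare z) : z ≠ 0 := fun h0 => h (h0 ▸ IsSquare.zero)

theorem rel_link (hA : HA F) (hN : NS F) {n a b c d : F} (hn : ¬ IsSquare n) (ha : a ≠ 0)
    (hb : b ≠ 0) (hc : c ≠ 0) (hd : d ≠ 0) :
    ∃ s t t', s ≠ 0 ∧ t ≠ 0 ∧ t' ≠ 0 ∧ pf a * pf b - pf s * pf t ∈ NN n 1 ∧
      pf c * pf d - pf s * pf t' ∈ NN n 1 := by
  obtain ⟨m, hm, hm'⟩ := hN n hn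
  obtain ⟨p, r, y, e, e', -, -, -, -, -, h⟩ := hA m a b c d hm ha hb hc hd
  refine linkN (ne_of_ns hn) ha hb hc hd ?_
  rw [show pf n * (pf a * pf b - pf c * pf d) = g e * (pf n * pf p * pf r) by
    linear_combination pf n * h + g e' * pf y * hm'.pf_mul (ne_of_ns hn)]
  exact ((dm_g_mul _ _).trans (dm_pf3 _ _ _)).trans_lt (by norm_num)

theorem merge3 (hA : HA F) (hN : NS F) {n : F} (hn : ¬ IsSquare n) {ι : W F}
    (h : ι ∈ II F ^ 3) : ∃ a b c, a ≠ 0 ∧ b ≠ 0 ∧ c ≠ 0 ∧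
      ι - pf a * pf b * pf c ∈ NN n 2 ⊔ II F ^ 4 := by
  refine ind3 (Q := fun ι => ∃ a b c, a ≠ 0 ∧ b ≠ 0 ∧ c ≠ 0 ∧
      ι - pf a * pf b * pf c ∈ NN n 2 ⊔ II F ^ 4)
    ⟨1, 1, 1, one_ne_zero, one_ne_zero, one_ne_zero, by simp⟩ ?_ ?_ h
  · rintro x y ⟨a, b, c, ha, hb, hc, hx⟩ ⟨a', b', c', ha', hb', hc', hy⟩
    obtain ⟨s, t, t', hs, ht, ht', k1, k2⟩ := rel_link hA hN hn ha hb ha' hb'
    obtain ⟨h, k, k', hh, hk, hk', k3, k4⟩ := rel_link hA hN hn ht hc ht' hc'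
    refine ⟨s, h, k * k', hs, hh, mul_ne_zero hk hk', ?_⟩
    have := add_mem (add_mem hx hy) (add_mem (Ideal.mem_sup_left (add_mem
      (add_mem (NN.mul_mem k1 (pf_mem hc)) (NN.mul_mem k2 (pf_mem hc')))
      (add_mem (NN.mul_mem k3 (pf_mem hs)) (NN.mul_mem k4 (pf_mem hs)))))
      (Ideal.mem_sup_right (pf4_mem hs hh hk hk')))
    convert this using 1
    simp only [pf, g_mul]; ring
  · intro e a b c he ha hb hc
    exact ⟨a, b, c, ha, hb, hc, Ideal.mem_sup_right (g_mul_sub he (pf3_mem ha hb hc))⟩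

theorem merge4 (hA : HA F) (hN : NS F) {n : F} (hn : ¬ IsSquare n) {κ : W F}
    (h : κ ∈ II F ^ 4) : ∃ ι ∈ II F ^ 3, κ - 2 * ι ∈ NN n 2 := by
  refine ind4 (Q := fun κ => ∃ ι ∈ II F ^ 3, κ - 2 * ι ∈ NN n 2) ⟨0, by simp, by simp⟩ ?_ ?_ h
  · rintro x y ⟨a, ha, hx⟩ ⟨b, hb, hy⟩
    exact ⟨a + b, add_mem ha hb, by convert add_mem hx hy using 1; ring⟩
  · intro e a b c d he ha hb hc hd
    obtain ⟨s, t, t', hs, ht, ht', k1, k2⟩ := rel_link hA hN hn ha hb hc hd
    refine ⟨g e * (pf s * pf t * pf t'), Ideal.mul_mem_left _ _ (pf3_mem hs ht ht'), ?_⟩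
    have := add_mem (Ideal.mul_mem_left _ (g e * pf d) (NN.mul_mem k1 (pf_mem hc)))
      (Ideal.mul_mem_left _ (g e * pf t) (NN.mul_mem k2 (pf_mem hs)))
    convert this using 1
    linear_combination g e * pf t * pf t' * pf_sq hs

theorem dm_pow {x : W F} (hx : dm x ≤ 2) (j : ℕ) : dm (x ^ j) ≤ 2 ^ j := by
  induction j with
  | zero => simpa using dm_g (1 : F)
  | succ j ih => rw [pow_succ, pow_succ]; exact (dm_mul _ _).trans (Nat.mul_le_mul ih hx)

theorem red3 (hA : HA F) (hN : NS F) {n : F} (hn : ¬ IsSquare n) (j : ℕ) {ι : W F}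
    (h : ι ∈ II F ^ 3) : ∃ θ, ∃ ι' ∈ II F ^ 3, dm θ + 8 ≤ 8 * 2 ^ j ∧
      ι - θ - 2 ^ j * ι' ∈ NN n 2 := by
  induction j with
  | zero => exact ⟨0, ι, h, by simp, by simp⟩
  | succ j ih =>
    obtain ⟨θ, ι', h1, h2, h3⟩ := ih
    obtain ⟨a, b, c, -, -, -, h4⟩ := merge3 hA hN hn h1
    obtain ⟨ν, hν, κ, hκ, h5⟩ := Submodule.mem_sup.1 h4
    obtain ⟨ι'', h6, h7⟩ := merge4 hA hN hn hκ
    refine ⟨θ + 2 ^ j * (pf a * pf b * pf c), ι'', h6, ?_, ?_⟩
    · have k1 := dm_add θ (2 ^ j * (pf a * pf b * pf c))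
      have k2 := (dm_mul (2 ^ j) (pf a * pf b * pf c)).trans (Nat.mul_le_mul
        (dm_pow (x := (2 : W F)) (pf_neg_one (F := F) ▸ dm_pf _) j) (dm_pf3 a b c))
      rw [pow_succ]; omega
    · have := add_mem h3 (Ideal.mul_mem_left _ (2 ^ j) (add_mem hν h7))
      convert this using 1
      linear_combination -(2 ^ j) * h5

theorem red2 (hA : HA F) {z : F} (hz : ¬ IsSquare z) (w : W F) :
    ∃ θ, dm θ ≤ 11 ∧ w - θ ∈ II F ^ 3 := by
  have z0 := ne_of_ns hz
  have k2 : ∀ w ∈ II F ^ 2, ∃ a b y, a ≠ 0 ∧ b ≠ 0 ∧ y ≠ 0 ∧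
      w - pf a * pf b - pf z * pf y ∈ II F ^ 3 := by
    intro w hw
    refine ind2 (Q := fun w => ∃ a b y, a ≠ 0 ∧ b ≠ 0 ∧ y ≠ 0 ∧
      w - pf a * pf b - pf z * pf y ∈ II F ^ 3)
      ⟨1, 1, 1, one_ne_zero, one_ne_zero, one_ne_zero, by simp⟩ ?_ ?_ hw
    · rintro u v ⟨a, b, y, ha, hb, hy, hu⟩ ⟨c, d, y', hc, hd, hy', hv⟩
      obtain ⟨p, r, y'', e, e', hp, hr, hy'', he, he', h⟩ := hA z a b c d hz ha hb hc hd
      refine ⟨p, r, y * y' * y'', hp, hr, by simp [hy, hy', hy''], ?_⟩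
      have := add_mem (add_mem (add_mem hu hv) (add_mem (mul_mem_succ two_mem (pf2_mem hc hd))
        (add_mem (g_mul_sub he (pf2_mem hp hr)) (g_mul_sub he' (pf2_mem z0 hy'')))))
        (add_mem (pf3_mem z0 hy hy') (pf3_mem z0 (mul_ne_zero hy hy') hy''))
      convert this using 1
      simp only [pf, g_mul] at h ⊢
      linear_combination h
    · intro e a b he ha hb
      exact ⟨a, b, 1, ha, hb, one_ne_zero, by simpa using g_mul_sub he (pf2_mem ha hb)⟩
  have k1 : ∀ w ∈ II F, ∃ d, d ≠ 0 ∧ w - pf d ∈ II F ^ 2 := by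
    intro w hw
    refine ind1 (Q := fun w => ∃ d, d ≠ 0 ∧ w - pf d ∈ II F ^ 2) ⟨1, one_ne_zero, by simp⟩
      ?_ ?_ hw
    · rintro u v ⟨a, ha, hu⟩ ⟨b, hb, hv⟩
      refine ⟨a * b, mul_ne_zero ha hb, ?_⟩
      convert add_mem (add_mem hu hv) (pf2_mem ha hb) using 1
      simp only [pf, g_mul]; ring
    · intro e a he ha
      exact ⟨a, ha, g_mul_sub (k := 1) he (by simpa using pf_mem ha)⟩
  have k0 : ∃ ε, dm ε ≤ 1 ∧ w - ε ∈ II F := by
    have : w ∈ II F ∨ w - 1 ∈ II F := by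
      induction w using W.induction with
      | h0 => simp
      | hg a =>
        by_cases ha : a = 0
        · simp [ha]
        · right; convert neg_mem (pf_mem ha) using 1; simp [pf]
      | hadd x y hx hy =>
        rcases hx with hx | hx <;> rcases hy with hy | hy
        · exact Or.inl (add_mem hx hy)
        · right; convert add_mem hx hy using 1; ring
        · right; convert add_mem hx hy using 1; ring
        · left; convert add_mem (add_mem hx hy) two_mem using 1; ring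
    rcases this with h | h
    · exact ⟨0, by simp, by simpa using h⟩
    · exact ⟨1, by simpa using dm_g (1 : F), h⟩
  obtain ⟨ε, e1, e2⟩ := k0
  obtain ⟨d, -, e3⟩ := k1 _ e2
  obtain ⟨a, b, y, -, -, -, e4⟩ := k2 _ e3
  refine ⟨ε + pf d + pf a * pf b + pf z * pf y, ?_, by convert e4 using 1; ring⟩
  have := dm_add (ε + pf d + pf a * pf b) (pf z * pf y)
  have := dm_add (ε + pf d) (pf a * pf b)
  have := dm_add ε (pf d)
  have := dm_pf d
  have := dm_pf2 a b
  have := dm_pf2 z y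
  omega

/-- a four dimensional form -/
theorem four {l : List F} (hl : NZ l) (hlen : l.length = 4) {z : F} (hz : z ≠ 0)
    (h : IsSquare (l.prod * z)) : ∃ p r e, p ≠ 0 ∧ r ≠ 0 ∧ e ≠ 0 ∧
      cl l = g e * (pf p * pf r) - g (e * p * r) * pf z := by
  match l, hlen with
  | [a, b, c, d], _ =>
    simp only [nz_cons] at hl
    obtain ⟨ha, hb, hc, hd, -⟩ := hl
    refine ⟨-(a * b), -(a * c), a, by simp [ha, hb], by simp [ha, hc], ha, ?_⟩
    have : g d = g (a * b * c * z) := g_eq_of_isSquare hd (by simp [ha, hb, hc, hz]) (by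
      convert h using 1; simp; ring)
    simp only [cl_cons, cl_nil, this, pf, g_mul, g_neg]
    have s := g_sq ha
    linear_combination (-(g b + g c) - g a * g b * g c * g z) * s

end Base

section Ext
variable {F K : Type*} [Field F] [Field K] [Algebra F K] [NeZero (2 : F)]

def HQ (F K : Type*) [Field F] [Field K] [Algebra F K] : Prop :=
  ∀ w ∈ II F ^ 2, ∃ (β : K) (cs : List K), β ≠ 0 ∧ NZ cs ∧ res F K w = pf β * cl cs ∧
    2 * cs.length ≤ dm (res F K w) ∧ (cs = [] ∨ ¬ IsSquare β)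

theorem cl_albert (a b c d : F) :
    cl [-a, -b, a * b, c, d, -(c * d)] = pf a * pf b - pf c * pf d := by
  simp [pf, g_mul]; ring

theorem albert (hq : HQ F K) {a b c d : F} (ha : a ≠ 0) (hb : b ≠ 0) (hc : c ≠ 0) (hd : d ≠ 0) :
    dm (res F K (pf a * pf b - pf c * pf d)) < 6 := by
  have := neZero_two F K
  have hw := sub_mem (pf2_mem ha hb) (pf2_mem hc hd)
  obtain ⟨β, cs, hβ, hcs, h1, h2, h3⟩ := hq _ hw
  have h4 : dm (res F K (pf a * pf b - pf c * pf d)) ≤ 6 :=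
    (dm_res _).trans (by rw [← cl_albert]; exact dm_le _)
  have h5 : dm (res F K (pf a * pf b - pf c * pf d)) ≤ 2 * cs.length := by
    rw [h1]; exact (dm_mul _ _).trans (Nat.mul_le_mul (dm_pf β) (dm_le cs))
  by_contra hlt
  have h6 : cs.length = 3 := by omega
  match cs, h6 with
  | [x, y, z], _ =>
    simp only [nz_cons] at hcs
    obtain ⟨hx, hy, hz, -⟩ := hcs
    obtain ⟨k, k1, r, k2⟩ := good_of_mem (l := [x, -(x * β), y, -(y * β), z, -(z * β)])
      (by simp [hx, hy, hz, hβ]) (by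
        convert res_mem (K := K) hw using 1
        rw [h1]; simp [pf, g_mul]; ring)
    obtain rfl : k = 3 := by simp at k1; omega
    refine h3.elim (by simp) (fun h => h ⟨r / (x * y * z * β), ?_⟩)
    simp only [List.prod_cons, List.prod_nil] at k2
    field_simp
    linear_combination k2

theorem albert_F (q : Quad F K) (hq : HQ F K) {a b c d : F} (ha : a ≠ 0) (hb : b ≠ 0)
    (hc : c ≠ 0) (hd : d ≠ 0) : ∃ p r y e e' : F, p ≠ 0 ∧ r ≠ 0 ∧ y ≠ 0 ∧ e ≠ 0 ∧ e' ≠ 0 ∧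
      pf a * pf b - pf c * pf d = g e * (pf p * pf r) + g e' * (pf q.x * pf y) := by
  have := neZero_two F K
  have hw := sub_mem (pf2_mem ha hb) (pf2_mem hc hd)
  have hl : NZ [-a, -b, a * b, c, d, -(c * d)] := by simp [ha, hb, hc, hd]
  by_cases hi : Isot [-a, -b, a * b, c, d, -(c * d)]
  · obtain ⟨m, hm⟩ := isot_split hl hi
    have m1 : NZ m := by have := hm.nz hl; simp at this; exact this
    have m2 : m.length = 4 := by simpa using hm.length_eq.symm
    have m3 : cl m = pf a * pf b - pf c * pf d := by rw [← cl_albert, hm.cl_eq hl]; simp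
    obtain ⟨k, k1, k2⟩ := good_of_mem m1 (m3 ▸ hw)
    obtain rfl : k = 2 := by omega
    obtain ⟨p, r, e, hp, hr, he, h⟩ := four m1 m2 one_ne_zero (by simpa using k2)
    exact ⟨p, r, 1, e, 1, hp, hr, one_ne_zero, he, one_ne_zero, by rw [← m3, h]; simp⟩
  · obtain ⟨e', m, he', h1, h2⟩ := q.split hi (by
      rw [isot_iff, ← res_cl, cl_albert]; simpa using albert hq ha hb hc hd)
    have m2 : m.length = 4 := by simpa using h2.symm
    have m0 : ¬ Isot m := by
      intro h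
      apply hi
      have k1 := isot_iff.1 h
      have k2 := dm_add (g e' * pf q.x) (cl m)
      have k3 := (dm_g_mul e' (pf q.x)).trans (dm_pf _)
      rw [isot_iff, h1]
      omega
    have m1 := NZ.of_not_isot m0
    obtain ⟨k, k1, r, k2⟩ := good_of_mem (l := e' :: -(e' * q.x) :: m)
      (by simp [he', q.x_ne, m1]) (by
        convert hw using 1
        rw [← cl_albert, h1]; simp [pf, g_mul]; ring)
    obtain rfl : k = 3 := by simp at k1; omega
    obtain ⟨p, r, e, hp, hr, he, h⟩ := four m1 m2 q.x_ne ⟨r / e', by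
      simp only [List.prod_cons] at k2
      field_simp
      linear_combination k2⟩
    refine ⟨p, r, e' * (e * p * r), e, e', hp, hr, by simp [he', he, hp, hr], he, he', ?_⟩
    rw [← cl_albert, h1, h]
    simp only [pf, g_mul]
    linear_combination (g e * g p * g r * (1 - g q.x)) * g_sq he'

theorem link_K (hq : HQ F K) {a b c d : F} (ha : a ≠ 0) (hb : b ≠ 0) (hc : c ≠ 0) (hd : d ≠ 0) :
    ∃ t : K, res F K (pf a * pf b * pf c * pf d) = res F K (2 * pf a * pf b) * pf t := by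
  have := neZero_two F K
  have h := albert hq ha hb hc hd
  simp only [map_sub, map_mul, res_pf] at h
  obtain ⟨s, t, t', hs, -, -, e1, e2⟩ := link0 (by simpa using ha) (by simpa using hb)
    (by simpa using hc) (by simpa using hd) h
  refine ⟨t', ?_⟩
  simp only [map_mul, res_pf, map_ofNat]
  linear_combination (pf (algebraMap F K c) * pf (algebraMap F K d) - 2 * pf t') * e1
    + pf s * pf t * e2 + pf t * pf t' * pf_sq hs

theorem pure_rep (q : Quad F K) (hq : HQ F K) {n a b c : F} (hn : n ≠ 0) (ha : a ≠ 0)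
    (hb : b ≠ 0) (hc : c ≠ 0) (h2 : 2 * pf n = 0) (h0 : pf n * (pf a * pf b * pf c) ≠ 0) :
    Rep (-n :: (L6 n a b ++ (PL [n, a, b]).map (-c * ·))) (-q.x) := by
  have := neZero_two F K
  have hz : NZ [n, a, b, c] := by simp [hn, ha, hb, hc]
  have hp : pp [n, a, b, c] = pf n * (pf a * pf b * pf c) := by simp [mul_assoc]
  have hi : ¬ Isot (PL [n, a, b, c]) := fun h => h0 (hp ▸ pp_eq_zero hz h)
  obtain ⟨t, ht⟩ := link_K hq hn ha hb hc
  rw [h2, zero_mul, map_zero, zero_mul] at ht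
  obtain ⟨e, m, he, h1, h3⟩ := q.split hi (by
    rw [isot_iff, ← res_cl, cl_P, hp, ← mul_assoc, ← mul_assoc, ht]; simp [length_P])
  rw [length_P] at h3
  have hr : Rep (PL [n, a, b, c]) e := rep_congr (m := e :: -(e * q.x) :: m) (nz_P hz)
    (by rw [h1]; simp [pf, g_mul]; ring) (by simp [length_P] at h3 ⊢; omega)
    (rep_cons.2 ⟨1, 0, rep_zero _, by ring⟩)
  have h4 := round hz he hr
  rw [cl_P] at h1
  refine rep_congr (m := -q.x :: m.map (e * ·)) ?_ ?_ (by simp [length_P, L6] at h3 ⊢; omega)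
    (rep_cons.2 ⟨1, 0, rep_zero _, by ring⟩)
  · simp only [nz_cons, nz_append]
    exact ⟨by simpa using hn, by simp [L6, ha, hb, hn],
      (nz_P (by simp [hn, ha, hb])).map (by simpa using hc)⟩
  · rw [cl_cons, cl_cons, cl_append, cl_L6, cl_map_mul, cl_map_mul, cl_P]
    simp only [pp_cons, pp_nil, pf, g_neg] at h1 h4 ⊢
    linear_combination h4 + g e * h1 + (1 - g q.x) * g_sq he

/-- moving a value of the pure part into a slot -/
theorem pure_slot {n a b c δ : F} (hn : n ≠ 0) (ha : a ≠ 0) (hb : b ≠ 0) (hc : c ≠ 0)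
    (hδ : δ ≠ 0) (J : Ideal (W F))
    (hJ : ∀ a b c : F, a ≠ 0 → b ≠ 0 → c ≠ 0 → pf n * (pf a * pf b * pf c) = 0 →
      pf a * pf b * pf c ∈ J)
    (h : Rep (L6 n a b ++ (PL [n, a, b]).map (-c * ·)) (-δ)) :
    ∃ u v, u ≠ 0 ∧ v ≠ 0 ∧ pf a * pf b * pf c - pf δ * pf u * pf v ∈ J := by
  have hN : ∀ w ∈ NN n 2, w ∈ J := fun w hw =>
    nn_ind (Q := fun w => w ∈ J) (zero_mem _) (fun _ _ => add_mem)
      (fun e m a b _ hm ha hb => J.mul_mem_left _ (hJ m a b hm.1 ha hb (by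
        linear_combination pf a * pf b * hm.pf_mul hn))) hw
  obtain ⟨w1, _, h1, h', h3⟩ := rep_append.1 h
  obtain ⟨w2, h2, rfl⟩ := rep_map.1 h'
  by_cases hw2 : w2 = 0
  · obtain rfl : w1 = -δ := by rw [h3, hw2]; ring
    obtain ⟨u, hu, k⟩ := slot ha hb hδ h1
    exact ⟨u, c, hu, hc, by convert hN _ (NN.mul_mem k (pf_mem hc)) using 1; ring⟩
  have k1 : pf a * pf b * pf w2 ∈ J := hJ a b w2 ha hb hw2 (by
    have := round (as := [n, a, b]) (by simp [hn, ha, hb]) hw2 h2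
    simp only [pp_cons, pp_nil] at this
    linear_combination this)
  have k2 : pf a * pf b * pf c - pf a * pf b * pf (c * w2) ∈ J := by
    convert neg_mem (J.mul_mem_left (g c) k1) using 1
    rw [pf_mul]; ring
  by_cases hw1 : w1 = 0
  · obtain rfl : δ = c * w2 := by rw [hw1] at h3; linear_combination -h3
    exact ⟨a, b, ha, hb, by convert k2 using 1; ring⟩
  have hcw := mul_ne_zero hc hw2
  obtain ⟨u, hu, k3⟩ := slot ha hb (neg_ne_zero.2 hw1) (by simpa using h1)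
  obtain ⟨v, hv, k4⟩ := pure2 (neg_ne_zero.2 hw1) hcw hδ
    (rep_three.2 ⟨1, 1, 0, by linear_combination h3⟩)
  refine ⟨u, v, hu, hv, ?_⟩
  convert add_mem k2 (hN _ (NN.mul_mem k3 (pf_mem hcw))) using 1
  linear_combination pf u * k4

end Ext

end Pool.Agent.P.MP_8513f1_al
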