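import Mathlib

/-! Diagonal symmetric bilinear forms given by lists, isometries, Witt cancellation. -/

set_option autoImplicit false

namespace Pool.Agent.P.MP_8513f1_al

open LinearMap (BilinForm)

variable {F : Type*} [Field F]

section General
variable {M M₁ M₂ M₃ N₁ N₂ : Type*} [AddCommGroup M] [Module F M] [AddCommGroup M₁] [Module F M₁]
  [AddCommGroup M₂] [Module F M₂] [AddCommGroup M₃] [Module F M₃] [AddCommGroup N₁] [Module F N₁]
  [AddCommGroup N₂] [Module F N₂]

def BIso (B₁ : BilinForm F M₁) (B₂ : BilinForm F M₂) : Prop :=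
  ∃ e : M₁ ≃ₗ[F] M₂, ∀ x y, B₂ (e x) (e y) = B₁ x y

theorem BIso.refl (B : BilinForm F M) : BIso B B := ⟨LinearEquiv.refl F M, fun _ _ => rfl⟩

theorem BIso.symm {B₁ : BilinForm F M₁} {B₂ : BilinForm F M₂} (h : BIso B₁ B₂) : BIso B₂ B₁ := by
  obtain ⟨e, he⟩ := h
  exact ⟨e.symm, fun x y => by rw [← he]; simp⟩

theorem BIso.trans {B₁ : BilinForm F M₁} {B₂ : BilinForm F M₂} {B₃ : BilinForm F M₃}
    (h : BIso B₁ B₂) (h' : BIso B₂ B₃) : BIso B₁ B₃ := by
  obtain ⟨e, he⟩ := h
  obtain ⟨f, hf⟩ := h'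
  exact ⟨e.trans f, fun x y => by simp [hf, he]⟩

def bprod (B₁ : BilinForm F M₁) (B₂ : BilinForm F M₂) : BilinForm F (M₁ × M₂) :=
  LinearMap.mk₂ F (fun x y => B₁ x.1 y.1 + B₂ x.2 y.2)
    (by intro a b c; simp; ring) (by intro a b c; simp; ring)
    (by intro a b c; simp; ring) (by intro a b c; simp; ring)

@[simp] theorem bprod_apply (B₁ : BilinForm F M₁) (B₂ : BilinForm F M₂) (x y : M₁ × M₂) :
    bprod B₁ B₂ x y = B₁ x.1 y.1 + B₂ x.2 y.2 := rfl

theorem BIso.prod {B₁ : BilinForm F M₁} {B₂ : BilinForm F M₂} {C₁ : BilinForm F N₁}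
    {C₂ : BilinForm F N₂} (h : BIso B₁ C₁) (h' : BIso B₂ C₂) :
    BIso (bprod B₁ B₂) (bprod C₁ C₂) := by
  obtain ⟨e, he⟩ := h
  obtain ⟨f, hf⟩ := h'
  exact ⟨e.prodCongr f, fun x y => by simp [he, hf]⟩

def b1 (a : F) : BilinForm F F :=
  LinearMap.mk₂ F (fun x y => a * x * y)
    (by intro a b c; ring) (by intro a b c; simp; ring)
    (by intro a b c; ring) (by intro a b c; simp; ring)

@[simp] theorem b1_apply (a x y : F) : b1 a x y = a * x * y := rfl

/-- reflection in a non-isotropic vector -/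
theorem exists_refl (B : BilinForm F M) (hs : ∀ x y, B x y = B y x) (u : M) (hu : B u u ≠ 0) :
    ∃ e : M ≃ₗ[F] M, (∀ x y, B (e x) (e y) = B x y) ∧
      ∀ x, e x = x - (2 * B x u / B u u) • u := by
  let f : M →ₗ[F] M :=
    { toFun := fun x => x - (2 * B x u / B u u) • u
      map_add' := by
        intro x y
        simp only [map_add, LinearMap.add_apply]
        rw [show 2 * (B x u + B y u) / B u u = 2 * B x u / B u u + 2 * B y u / B u u by ring,
          add_smul]
        abel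
      map_smul' := by
        intro c x
        simp only [map_smul, LinearMap.smul_apply, smul_eq_mul, RingHom.id_apply, smul_sub,
          smul_smul]
        congr 2
        ring }
  have hf : ∀ x, f x = x - (2 * B x u / B u u) • u := fun _ => rfl
  have hinv : Function.Involutive f := by
    intro x
    rw [hf, hf]
    simp only [map_sub, map_smul, LinearMap.sub_apply, LinearMap.smul_apply, smul_eq_mul]
    rw [sub_sub, ← add_smul]
    have : 2 * B x u / B u u + 2 * (B x u - 2 * B x u / B u u * B u u) / B u u = 0 := by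
      field_simp; ring
    rw [this]; simp
  refine ⟨LinearEquiv.ofInvolutive f hinv, ?_, fun x => rfl⟩
  intro x y
  change B (f x) (f y) = _
  rw [hf, hf]
  simp only [map_sub, map_smul, LinearMap.sub_apply, LinearMap.smul_apply, smul_eq_mul]
  rw [hs u y]
  field_simp
  ring

theorem exists_move [NeZero (2 : F)] (B : BilinForm F M) (hs : ∀ x y, B x y = B y x) (x y : M)
    (hxy : B x x = B y y) (hx : B x x ≠ 0) :
    ∃ e : M ≃ₗ[F] M, (∀ x y, B (e x) (e y) = B x y) ∧ e x = y := by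
  have h2 : (2 : F) ≠ 0 := NeZero.ne 2
  by_cases h : B (x - y) (x - y) ≠ 0
  · obtain ⟨e, he, hf⟩ := exists_refl B hs _ h
    refine ⟨e, he, ?_⟩
    rw [hf]
    have : 2 * B x (x - y) / B (x - y) (x - y) = 1 := by
      rw [div_eq_one_iff_eq h]
      simp only [map_sub, LinearMap.sub_apply]
      rw [hs y x, ← hxy]; ring
    rw [this]; simp
  · have h' : B (x + y) (x + y) ≠ 0 := by
      intro h'
      push Not at h
      simp only [map_sub, LinearMap.sub_apply, map_add, LinearMap.add_apply] at h h'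
      rw [hs y x, ← hxy] at h h'
      apply hx
      have : 2 * (2 * B x x) = 0 := by linear_combination h + h'
      simpa [h2] using this
    obtain ⟨e, he, hf⟩ := exists_refl B hs _ h'
    refine ⟨e.trans (LinearEquiv.neg F), fun a b => by simp [he], ?_⟩
    have : 2 * B x (x + y) / B (x + y) (x + y) = 1 := by
      rw [div_eq_one_iff_eq h']
      simp only [map_add, LinearMap.add_apply]
      rw [hs y x, ← hxy]; ring
    simp only [LinearEquiv.trans_apply, LinearEquiv.neg_apply]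
    rw [hf, this]; simp

theorem cancel_aux (a : F) (ha : a ≠ 0) {B₁ : BilinForm F M₁} {B₂ : BilinForm F M₂}
    (e : (F × M₁) ≃ₗ[F] (F × M₂))
    (he : ∀ x y, bprod (b1 a) B₂ (e x) (e y) = bprod (b1 a) B₁ x y) (h1 : e (1, 0) = (1, 0))
    (y : M₁) : (e (0, y)).1 = 0 := by
  have := he (1, 0) (0, y)
  rw [h1] at this
  simpa [ha] using this

theorem BIso.cancel [NeZero (2 : F)] (a : F) (ha : a ≠ 0) {B₁ : BilinForm F M₁}
    {B₂ : BilinForm F M₂} (hs : ∀ x y, B₂ x y = B₂ y x)
    (h : BIso (bprod (b1 a) B₁) (bprod (b1 a) B₂)) : BIso B₁ B₂ := by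
  obtain ⟨e₀, he₀⟩ := h
  obtain ⟨t, ht, ht1⟩ := exists_move (bprod (b1 a) B₂)
    (fun x y => by simp [hs x.2 y.2]; ring_nf) (e₀ (1, 0)) (1, 0)
    (by rw [he₀]; simp) (by rw [he₀]; simpa using ha)
  let e := e₀.trans t
  have he : ∀ x y, bprod (b1 a) B₂ (e x) (e y) = bprod (b1 a) B₁ x y := fun x y => by
    simp only [e, LinearEquiv.trans_apply]; rw [ht, he₀]
  have h1 : e (1, 0) = (1, 0) := ht1
  have he' : ∀ x y, bprod (b1 a) B₁ (e.symm x) (e.symm y) = bprod (b1 a) B₂ x y := fun x y => by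
    rw [← he]; simp
  have h1' : e.symm (1, 0) = (1, 0) := by rw [← h1]; simp
  have k1 := cancel_aux a ha e he h1
  have k2 := cancel_aux a ha e.symm he' h1'
  have e1 : ∀ y, e (0, y) = (0, (e (0, y)).2) := fun y => Prod.ext (k1 y) rfl
  have e2 : ∀ y, e.symm (0, y) = (0, (e.symm (0, y)).2) := fun y => Prod.ext (k2 y) rfl
  refine ⟨LinearEquiv.ofLinearMap
    ((LinearMap.snd F F M₂) ∘ₗ e.toLinearMap ∘ₗ (LinearMap.inr F F M₁))
    ((LinearMap.snd F F M₁) ∘ₗ e.symm.toLinearMap ∘ₗ (LinearMap.inr F F M₂)) ?_ ?_, ?_⟩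
  · ext y
    simp only [LinearMap.coe_comp, Function.comp_apply, LinearMap.coe_inr, LinearEquiv.coe_coe,
      LinearMap.coe_snd, LinearMap.id_coe, id_eq]
    rw [← e2]; simp
  · ext y
    simp only [LinearMap.coe_comp, Function.comp_apply, LinearMap.coe_inr, LinearEquiv.coe_coe,
      LinearMap.coe_snd, LinearMap.id_coe, id_eq]
    rw [← e1]; simp
  · intro x y
    have := he (0, x) (0, y)
    rw [e1 x, e1 y] at this
    simpa using this

end General

/-- the diagonal form of a list -/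
def bf (l : List F) : BilinForm F (Fin l.length → F) :=
  LinearMap.mk₂ F (fun x y => ∑ i, l.get i * x i * y i)
    (by intro a b c; simp [← Finset.sum_add_distrib]; congr 1; ext; ring)
    (by intro a b c; simp [Finset.mul_sum]; congr 1; ext; ring)
    (by intro a b c; simp [← Finset.sum_add_distrib]; congr 1; ext; ring)
    (by intro a b c; simp [Finset.mul_sum]; congr 1; ext; ring)

theorem bf_apply (l : List F) (x y : Fin l.length → F) :
    bf l x y = ∑ i, l.get i * x i * y i := rfl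

theorem bf_symm (l : List F) (x y : Fin l.length → F) : bf l x y = bf l y x := by
  simp only [bf_apply]; congr 1; ext; ring

theorem bf_cons_apply (a : F) (l : List F) (x y : Fin (l.length + 1) → F) :
    bf (a :: l) x y = a * x 0 * y 0 + bf l (Fin.tail x) (Fin.tail y) := by
  simp only [bf_apply]
  exact Fin.sum_univ_succ _

theorem bf_cons (a : F) (l : List F) : BIso (bprod (b1 a) (bf l)) (bf (a :: l)) := by
  refine ⟨Fin.consLinearEquiv F (fun _ : Fin (l.length + 1) => F), fun x y => ?_⟩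
  erw [bf_cons_apply]
  simp [Fin.consLinearEquiv, Fin.consEquiv]

theorem bf_nil (x y : Fin ([] : List F).length → F) : bf [] x y = 0 := by
  rw [bf_apply]; exact Fin.sum_univ_zero _

instance : Unique (Fin ([] : List F).length → F) := inferInstanceAs (Unique (Fin 0 → F))

theorem bf_append (l l' : List F) : BIso (bprod (bf l) (bf l')) (bf (l ++ l')) := by
  induction l with
  | nil =>
    refine ⟨LinearEquiv.uniqueProd, fun x y => ?_⟩
    rw [bprod_apply, bf_nil, zero_add]; rfl
  | cons a l ih =>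
    refine BIso.trans ?_ (bf_cons a (l ++ l'))
    refine BIso.trans ?_ ((BIso.refl (b1 a)).prod ih)
    refine BIso.trans ((bf_cons a l).symm.prod (BIso.refl _)) ?_
    exact ⟨LinearEquiv.prodAssoc F _ _ _, fun x y => by simp [add_assoc]⟩

def Iso (l l' : List F) : Prop := BIso (bf l) (bf l')

theorem Iso.refl (l : List F) : Iso l l := BIso.refl _
theorem Iso.symm {l l' : List F} (h : Iso l l') : Iso l' l := BIso.symm h
theorem Iso.trans {l l' l'' : List F} (h : Iso l l') (h' : Iso l' l'') : Iso l l'' :=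
  BIso.trans h h'

theorem Iso.length_eq {l l' : List F} (h : Iso l l') : l.length = l'.length := by
  obtain ⟨e, -⟩ := h
  simpa using e.finrank_eq

theorem Iso.append {l₁ l₂ m₁ m₂ : List F} (h : Iso l₁ m₁) (h' : Iso l₂ m₂) :
    Iso (l₁ ++ l₂) (m₁ ++ m₂) :=
  ((bf_append _ _).symm.trans (BIso.prod h h')).trans (bf_append _ _)

theorem Iso.cons (a : F) {l m : List F} (h : Iso l m) : Iso (a :: l) (a :: m) :=
  Iso.append (Iso.refl [a]) h

theorem Iso.comm (l m : List F) : Iso (l ++ m) (m ++ l) :=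
  ((bf_append _ _).symm.trans
    ⟨LinearEquiv.prodComm F _ _, fun x y => by simp [add_comm]⟩).trans (bf_append _ _)

theorem Iso.of_perm {l m : List F} (h : l.Perm m) : Iso l m := by
  induction h with
  | nil => exact Iso.refl _
  | cons a _ ih => exact ih.cons a
  | swap a b l => exact Iso.append (Iso.comm [b] [a]) (Iso.refl l)
  | trans _ _ ih ih' => exact ih.trans ih'

theorem Iso.cancel [NeZero (2 : F)] {a : F} (ha : a ≠ 0) {l m : List F}
    (h : Iso (a :: l) (a :: m)) : Iso l m :=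
  BIso.cancel a ha (bf_symm m) (((bf_cons a l).trans h).trans (bf_cons a m).symm)

def NZ (l : List F) : Prop := ∀ a ∈ l, a ≠ 0

@[simp] theorem nz_nil : NZ ([] : List F) := by simp [NZ]
@[simp] theorem nz_cons {a : F} {l : List F} : NZ (a :: l) ↔ a ≠ 0 ∧ NZ l := by simp [NZ]
@[simp] theorem nz_append {l m : List F} : NZ (l ++ m) ↔ NZ l ∧ NZ m := by
  simp only [NZ, List.mem_append]
  exact ⟨fun h => ⟨fun a ha => h a (Or.inl ha), fun a ha => h a (Or.inr ha)⟩,
    fun h a ha => ha.elim (h.1 a) (h.2 a)⟩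

theorem Iso.cancel_left [NeZero (2 : F)] {k l m : List F} (hk : NZ k)
    (h : Iso (k ++ l) (k ++ m)) : Iso l m := by
  induction k with
  | nil => exact h
  | cons a k ih =>
    rw [nz_cons] at hk
    exact ih hk.2 (Iso.cancel hk.1 h)

theorem bf_nondeg {l : List F} (hl : NZ l) (x : Fin l.length → F) (h : ∀ y, bf l x y = 0) :
    x = 0 := by
  ext i
  have := h (Pi.single i 1)
  rw [bf_apply, Finset.sum_eq_single i (by intro j _ hj; simp [hj]) (by simp)] at this
  simpa [hl _ (List.getElem_mem i.2)] using this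

theorem BIso.of_map {M : Type*} [AddCommGroup M] [Module F M] [FiniteDimensional F M]
    {l : List F} (hl : NZ l) (B : BilinForm F M) (hd : Module.finrank F M = l.length)
    (f : (Fin l.length → F) →ₗ[F] M) (hf : ∀ x y, B (f x) (f y) = bf l x y) : BIso (bf l) B := by
  have hinj : Function.Injective f := by
    rw [← LinearMap.ker_eq_bot, LinearMap.ker_eq_bot']
    intro x hx
    exact bf_nondeg hl x fun y => by rw [← hf, hx]; simp
  exact ⟨f.linearEquivOfInjective hinj (by simp [hd]), fun x y => by simp [hf]⟩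

theorem Iso.nz {l m : List F} (h : Iso l m) (hl : NZ l) : NZ m := by
  obtain ⟨e, he⟩ := h
  intro a ha h0
  obtain ⟨i, hi, rfl⟩ := List.getElem_of_mem ha
  have : e.symm (Pi.single ⟨i, hi⟩ 1) = 0 := by
    apply bf_nondeg hl
    intro y
    rw [← he, LinearEquiv.apply_symm_apply, bf_apply,
      Finset.sum_eq_single ⟨i, hi⟩ (by intro j _ hj; simp [hj]) (by simp)]
    simp [h0]
  have h2 := congrFun ((LinearEquiv.map_eq_zero_iff _).1 this) ⟨i, hi⟩
  simp at h2

/-- a two-dimensional space with an orthogonal basis -/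
theorem BIso.two {M : Type*} [AddCommGroup M] [Module F M] [FiniteDimensional F M]
    (B : BilinForm F M) (hs : ∀ x y, B x y = B y x) (hd : Module.finrank F M = 2) (v w : M)
    (hv : B v v ≠ 0) (hw : B w w ≠ 0) (hvw : B v w = 0) : BIso (bf [B v v, B w w]) B := by
  refine BIso.of_map (by simp [hv, hw]) B hd
    ((LinearMap.proj (0 : Fin 2) : (Fin 2 → F) →ₗ[F] F).smulRight v +
      (LinearMap.proj (1 : Fin 2) : (Fin 2 → F) →ₗ[F] F).smulRight w) ?_
  intro x y
  erw [bf_apply, Fin.sum_univ_two]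
  simp [hs w v, hvw]
  ring

def Rep (l : List F) (c : F) : Prop := ∃ v, bf l v v = c
def Isot (l : List F) : Prop := ∃ v, v ≠ 0 ∧ bf l v v = 0

theorem Iso.rep {l m : List F} (h : Iso l m) {c : F} (hc : Rep l c) : Rep m c := by
  obtain ⟨e, he⟩ := h
  obtain ⟨v, hv⟩ := hc
  exact ⟨e v, by rw [he, hv]⟩

theorem Iso.isot {l m : List F} (h : Iso l m) (hc : Isot l) : Isot m := by
  obtain ⟨e, he⟩ := h
  obtain ⟨v, hv, hv'⟩ := hc
  exact ⟨e v, by simpa using hv, by rw [he, hv']⟩

@[simp] theorem rep_nil {c : F} : Rep ([] : List F) c ↔ c = 0 := by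
  unfold Rep; simp only [bf_nil]; simp [eq_comm]

@[simp] theorem not_isot_nil : ¬ Isot ([] : List F) := by
  rintro ⟨v, hv, -⟩
  exact hv (Subsingleton.elim _ _)

theorem rep_append {l m : List F} {c : F} :
    Rep (l ++ m) c ↔ ∃ a b, Rep l a ∧ Rep m b ∧ c = a + b := by
  obtain ⟨e, he⟩ := bf_append l m
  constructor
  · rintro ⟨v, rfl⟩
    obtain ⟨w, rfl⟩ := e.surjective v
    exact ⟨_, _, ⟨w.1, rfl⟩, ⟨w.2, rfl⟩, by rw [he]; simp⟩
  · rintro ⟨_, _, ⟨v, rfl⟩, ⟨w, rfl⟩, rfl⟩
    exact ⟨e (v, w), by rw [he]; simp⟩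

theorem rep_single {a c : F} : Rep [a] c ↔ ∃ t, c = a * t ^ 2 := by
  constructor
  · rintro ⟨v, rfl⟩
    exact ⟨v 0, by erw [bf_apply, Fin.sum_univ_one]; simp; ring⟩
  · rintro ⟨t, rfl⟩
    exact ⟨fun _ => t, by erw [bf_apply, Fin.sum_univ_one]; simp; ring⟩

theorem rep_cons {a c : F} {l : List F} :
    Rep (a :: l) c ↔ ∃ t b, Rep l b ∧ c = a * t ^ 2 + b := by
  rw [show a :: l = [a] ++ l from rfl, rep_append]
  constructor
  · rintro ⟨_, b, h, hb, rfl⟩
    obtain ⟨t, rfl⟩ := rep_single.1 h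
    exact ⟨t, b, hb, rfl⟩
  · rintro ⟨t, b, hb, rfl⟩
    exact ⟨_, b, rep_single.2 ⟨t, rfl⟩, hb, rfl⟩

theorem rep_zero (l : List F) : Rep l 0 := ⟨0, by simp⟩

theorem Rep.mul_sq {l : List F} {c : F} (h : Rep l c) (t : F) : Rep l (c * t ^ 2) := by
  obtain ⟨v, rfl⟩ := h
  exact ⟨t • v, by simp; ring⟩

theorem isot_append {l m : List F} :
    Isot (l ++ m) ↔ Isot l ∨ Isot m ∨ ∃ c, c ≠ 0 ∧ Rep l c ∧ Rep m (-c) := by
  obtain ⟨e, he⟩ := bf_append l m
  constructor
  · rintro ⟨v, hv, h⟩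
    obtain ⟨w, rfl⟩ := e.surjective v
    rw [he, bprod_apply] at h
    by_cases h0 : bf l w.1 w.1 = 0
    · by_cases h1 : w.1 = 0
      · right; left
        refine ⟨w.2, fun h2 => hv ?_, by simpa [h0] using h⟩
        rw [show w = 0 from Prod.ext h1 h2]; simp
      · exact Or.inl ⟨w.1, h1, h0⟩
    · exact Or.inr (Or.inr ⟨_, h0, ⟨w.1, rfl⟩, ⟨w.2, by linear_combination h⟩⟩)
  · rintro (⟨v, hv, h⟩ | ⟨v, hv, h⟩ | ⟨c, hc, ⟨v, hv⟩, ⟨w, hw⟩⟩)
    · exact ⟨e (v, 0), by simpa using hv, by rw [he]; simpa using h⟩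
    · exact ⟨e (0, v), by simpa using hv, by rw [he]; simpa using h⟩
    · refine ⟨e (v, w), ?_, by rw [he]; simp [hv, hw]⟩
      simp only [ne_eq, EmbeddingLike.map_eq_zero_iff, Prod.mk_eq_zero, not_and]
      rintro rfl
      simp at hv
      exact absurd hv.symm hc

theorem isot_single {a : F} : Isot [a] ↔ a = 0 := by
  constructor
  · rintro ⟨v, hv, h⟩
    erw [bf_apply, Fin.sum_univ_one] at h
    have : v 0 ≠ 0 := fun h0 => hv (by ext i; rw [Subsingleton.elim (α := Fin 1) i 0]; exact h0)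
    simpa [this] using h
  · rintro rfl
    exact ⟨fun _ => 1, fun h => by simpa using congrFun h 0,
      by erw [bf_apply, Fin.sum_univ_one]; simp⟩

theorem isot_cons {a : F} {l : List F} : Isot (a :: l) ↔ Rep l (-a) ∨ Isot l := by
  rw [show a :: l = [a] ++ l from rfl, isot_append, isot_single]
  constructor
  · rintro (rfl | h | ⟨c, hc, h1, h2⟩)
    · left; simpa using rep_zero l
    · exact Or.inr h
    · obtain ⟨t, rfl⟩ := rep_single.1 h1
      have ht : t ≠ 0 := by rintro rfl; simp at hc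
      left
      have := h2.mul_sq t⁻¹
      rwa [show -(a * t ^ 2) * t⁻¹ ^ 2 = -a by field_simp] at this
  · rintro (h | h)
    · by_cases ha : a = 0
      · exact Or.inl ha
      · exact Or.inr (Or.inr ⟨a, ha, rep_single.2 ⟨1, by ring⟩, h⟩)
    · exact Or.inr (Or.inl h)

theorem NZ.of_not_isot {l : List F} (h : ¬ Isot l) : NZ l := by
  induction l with
  | nil => simp
  | cons a l ih =>
    rw [isot_cons, not_or] at h
    refine nz_cons.2 ⟨?_, ih h.2⟩
    rintro rfl
    exact h.1 (by simpa using rep_zero l)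

theorem iso_two {a b s t : F} (ha : a ≠ 0) (hb : b ≠ 0) (hc : a * s ^ 2 + b * t ^ 2 ≠ 0) :
    Iso [a * s ^ 2 + b * t ^ 2, a * b * (a * s ^ 2 + b * t ^ 2)] [a, b] := by
  have k : ∀ x y : Fin 2 → F, bf [a, b] x y = a * x 0 * y 0 + b * x 1 * y 1 := fun x y => by
    erw [bf_apply, Fin.sum_univ_two]; simp
  have h1 : bf [a, b] ![s, t] ![s, t] = a * s ^ 2 + b * t ^ 2 := by erw [k]; simp; ring
  have h2 : bf [a, b] ![-b * t, a * s] ![-b * t, a * s] = a * b * (a * s ^ 2 + b * t ^ 2) := by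
    erw [k]; simp; ring
  have := BIso.two (bf [a, b]) (bf_symm _) (by simp) ![s, t] ![-b * t, a * s]
    (by rw [h1]; exact hc) (by rw [h2]; simp [ha, hb, hc]) (by erw [k]; simp; ring)
  rwa [h1, h2] at this

theorem iso_sq {a t : F} (ha : a ≠ 0) (ht : t ≠ 0) : Iso [a * t ^ 2] [a] := by
  refine BIso.of_map (by simp [ha, ht]) _ (by simp) (t • LinearMap.id) ?_
  intro x y
  erw [bf_apply, bf_apply, Fin.sum_univ_one, Fin.sum_univ_one]
  simp; ring

end Pool.Agent.P.MP_8513f1_al
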