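import Pool.Agent.P.MP_8513f1_al.Main

/-! Consequences of the splitting hypothesis. -/

set_option autoImplicit false
set_option linter.unusedSectionVars false

namespace Pool.Agent.P.MP_8513f1_al

section Small
variable {K L : Type*} [Field K] [Field L] [Algebra K L]

theorem pow_basis [FiniteDimensional K L] {p : ℕ} (hp : p.Prime) (h : Module.finrank K L = p) :
    ∃ α : L, α ∉ (algebraMap K L).range ∧ LinearIndependent K (fun i : Fin p => α ^ (i : ℕ)) ∧
      ∀ z : L, ∃ c : Fin p → K, ∑ i, c i • α ^ (i : ℕ) = z := by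
  have : ∃ α : L, α ∉ (algebraMap K L).range := by
    by_contra hne
    push Not at hne
    have := LinearMap.finrank_le_finrank_of_surjective (f := Algebra.linearMap K L)
      (fun z => hne z)
    rw [h, Module.finrank_self] at this
    exact absurd hp.two_le (by omega)
  obtain ⟨α, hα⟩ := this
  have h1 := minpoly.degree_dvd (Algebra.IsIntegral.isIntegral (R := K) α)
  rw [h] at h1
  have h2 : (minpoly K α).natDegree = p :=
    ((Nat.dvd_prime hp).1 h1).resolve_left (mt minpoly.natDegree_eq_one_iff.1 hα)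
  have h3 := linearIndependent_pow (K := K) α
  rw [h2] at h3
  have : Nonempty (Fin p) := ⟨⟨0, hp.pos⟩⟩
  have h4 := h3.span_eq_top_of_card_eq_finrank' (by simp [h])
  exact ⟨α, hα, h3, fun z => (Submodule.mem_span_range_iff_exists_fun K).1 (h4 ▸ trivial)⟩

theorem springer1 [FiniteDimensional K L] (h : Module.finrank K L = 1) {l : List K}
    (hi : Isot (l.map (algebraMap K L))) : Isot l := by
  have hs : Function.Surjective (algebraMap K L) :=
    (LinearMap.injective_iff_surjective_of_finrank_eq_finrank (f := Algebra.linearMap K L)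
      (by simp [h])).1 (algebraMap K L).injective
  obtain ⟨v, hv, h0⟩ := isot_alg.1 hi
  choose u hu using fun i => hs (v i)
  refine ⟨u, fun hz => hv ?_, (algebraMap K L).injective ?_⟩
  · ext i; rw [← hu i, hz]; simp
  · rw [map_zero, ← h0, bf_apply]; simp [hu]

theorem springer3 [FiniteDimensional K L] (h : Module.finrank K L = 3) {l : List K}
    (hi : Isot (l.map (algebraMap K L))) : Isot l := by
  obtain ⟨α, hα, hli, hsp⟩ := pow_basis Nat.prime_three h
  have ind : ∀ a b c : K, algebraMap K L a + algebraMap K L b * α + algebraMap K L c * α ^ 2 = 0 →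
      a = 0 ∧ b = 0 ∧ c = 0 := by
    intro a b c habc
    have := Fintype.linearIndependent_iff.1 hli ![a, b, c]
      (by simpa [Fin.sum_univ_three, Algebra.smul_def] using habc)
    exact ⟨this 0, this 1, this 2⟩
  have sp : ∀ z : L, ∃ a b c : K,
      z = algebraMap K L a + algebraMap K L b * α + algebraMap K L c * α ^ 2 := by
    intro z
    obtain ⟨c, hc⟩ := hsp z
    exact ⟨c 0, c 1, c 2, by simpa [Fin.sum_univ_three, Algebra.smul_def] using hc.symm⟩
  obtain ⟨x, hx, h0⟩ := isot_alg.1 hi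
  choose u v w huvw using fun i => sp (x i)
  obtain ⟨c0, c1, c2, hc⟩ := sp (α ^ 3)
  by_contra hl
  have an : ∀ y, bf l y y = 0 → y = 0 := fun y hy => by by_contra hne; exact hl ⟨y, hne, hy⟩
  have e : algebraMap K L (bf l u u) + algebraMap K L (2 * bf l u v) * α +
      algebraMap K L (bf l v v + 2 * bf l u w) * α ^ 2 + algebraMap K L (2 * bf l v w) * α ^ 3 +
      algebraMap K L (bf l w w) * α ^ 4 = 0 := by
    rw [← h0]
    simp only [bf_apply, map_add, map_mul, map_sum, Finset.mul_sum, Finset.sum_mul, map_ofNat,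
      ← Finset.sum_add_distrib]
    refine Finset.sum_congr rfl fun i _ => ?_
    rw [huvw i]; ring
  obtain ⟨e0, e1, e2⟩ := ind (bf l u u + 2 * bf l v w * c0 + bf l w w * (c2 * c0))
    (2 * bf l u v + 2 * bf l v w * c1 + bf l w w * (c0 + c2 * c1))
    (bf l v v + 2 * bf l u w + 2 * bf l v w * c2 + bf l w w * (c1 + c2 ^ 2)) (by
      simp only [map_add, map_mul, map_pow, map_ofNat] at e ⊢
      linear_combination e - (2 * algebraMap K L (bf l v w) +
        algebraMap K L (bf l w w) * (α + algebraMap K L c2)) * hc)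
  by_cases hA : bf l w w = 0
  · obtain rfl := an w hA
    simp only [map_zero, mul_zero, zero_mul, add_zero] at e0 e2
    obtain rfl := an u e0
    obtain rfl := an v e2
    exact hx (by ext i; rw [huvw i]; simp)
  set β := -(2 * bf l v w + bf l w w * c2) / bf l w w with hβ
  have hβ' : bf l w w * β + (2 * bf l v w + bf l w w * c2) = 0 := by rw [hβ]; field_simp; ring
  have k1 : u + β • v + β ^ 2 • w = 0 := an _ (by
    simp only [map_add, map_smul, LinearMap.add_apply, LinearMap.smul_apply, smul_eq_mul,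
      bf_symm l v u, bf_symm l w u, bf_symm l w v]
    linear_combination e0 + β * e1 + β ^ 2 * e2 + (β ^ 3 - c2 * β ^ 2 - c1 * β - c0) * hβ')
  have k2 : α - algebraMap K L β ≠ 0 := fun h => hα ⟨β, (sub_eq_zero.1 h).symm⟩
  refine hA (ind (bf l (v + β • w) (v + β • w)) (2 * bf l (v + β • w) w) _ ?_).2.2
  refine mul_left_cancel₀ (pow_ne_zero 2 k2) ?_
  rw [mul_zero, ← h0, bf_apply, bf_apply, bf_apply]
  simp only [map_add, map_mul, map_sum, Finset.sum_mul, Finset.mul_sum _ _ (2 : K), map_ofNat,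
    ← Finset.sum_add_distrib, Pi.add_apply, Pi.smul_apply, smul_eq_mul]
  rw [Finset.mul_sum]
  refine Finset.sum_congr rfl fun i _ => ?_
  have k3 : u i = -(β * v i + β ^ 2 * w i) := by
    have := congrFun k1 i
    simp only [Pi.add_apply, Pi.smul_apply, smul_eq_mul, Pi.zero_apply] at this
    linear_combination this
  rw [huvw i, k3]
  simp only [map_neg, map_add, map_mul, map_pow]
  ring

theorem exists_quad [NeZero (2 : K)] [FiniteDimensional K L] (h : Module.finrank K L = 2) :
    Nonempty (Quad K L) := by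
  have h2 : (2 : K) ≠ 0 := NeZero.ne 2
  have h2' : (2 : L) ≠ 0 := (neZero_two K L).ne
  obtain ⟨α, hα, -, hsp⟩ := pow_basis Nat.prime_two h
  have sp : ∀ z : L, ∃ a b : K, z = algebraMap K L a + algebraMap K L b * α := by
    intro z
    obtain ⟨c, hc⟩ := hsp z
    exact ⟨c 0, c 1, by simpa [Fin.sum_univ_two, Algebra.smul_def] using hc.symm⟩
  obtain ⟨c0, c1, hc⟩ := sp (α * α)
  have hr : (2 * α - algebraMap K L c1) * (2 * α - algebraMap K L c1) =
      algebraMap K L (c1 ^ 2 + 4 * c0) := by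
    simp only [map_add, map_mul, map_pow, map_ofNat]; linear_combination 4 * hc
  refine ⟨⟨c1 ^ 2 + 4 * c0, 2 * α - algebraMap K L c1, ?_, hr, fun z => ?_⟩⟩
  · rintro ⟨t, ht⟩
    rw [ht, map_mul, mul_self_eq_mul_self_iff] at hr
    rcases hr with hr | hr
    · refine hα ⟨(c1 + t) / 2, ?_⟩
      rw [map_div₀, map_add, map_ofNat]; field_simp; linear_combination -hr
    · refine hα ⟨(c1 - t) / 2, ?_⟩
      rw [map_div₀, map_sub, map_ofNat]; field_simp; linear_combination -hr
  · obtain ⟨a, b, rfl⟩ := sp z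
    refine ⟨(a + b * c1 / 2, b / 2), ?_⟩
    simp only [map_add, map_div₀, map_mul, map_ofNat]
    field_simp; ring

end Small

section Hyp
variable {F : Type} [Field F] [NeZero (2 : F)]

def H7 (F : Type) [Field F] : Prop :=
  ∀ (m : ℕ) (w : Fin (2 * m) → F), (∀ i, w i ≠ 0) →
    ∃ (L : Type) (_ : Field L) (_ : Algebra F L),
      FiniteDimensional F L ∧ Module.finrank F L ≤ 7 ∧
      ∃ W : Submodule L (Fin (2 * m) → L), Module.finrank L W = m ∧
        ∀ v ∈ W, ∑ i, algebraMap F L (w i) * v i ^ 2 = 0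

theorem H7.split (h : H7 F) {l : List F} (hl : NZ l) {m : ℕ} (hm : l.length = 2 * m) :
    ∃ (L : Type) (_ : Field L) (_ : Algebra F L),
      FiniteDimensional F L ∧ Module.finrank F L ≤ 7 ∧ res F L (cl l) = 0 := by
  obtain ⟨L, _, _, h1, h2, U, h3, h4⟩ := h m (fun i => l.get (i.cast hm.symm))
    (fun i => hl _ (List.get_mem _ _))
  have := neZero_two F L
  refine ⟨L, _, _, h1, h2, ?_⟩
  have hm' : (l.map (algebraMap F L)).length = 2 * m := by simpa using hm
  let e := LinearEquiv.funCongrLeft L L (finCongr hm')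
  have := dm_of_subspace m (hl.alg (K := L)) (U.map e.toLinearMap)
    (by rw [LinearEquiv.finrank_map_eq, h3]) (by
      rintro _ ⟨v, hv, rfl⟩
      rw [← h4 v hv, bf_apply]
      exact Fintype.sum_equiv (finCongr hm') _ _ (fun i => by simp [e, sq, mul_assoc]))
  rw [res_cl]
  exact dm_eq_zero (by omega)

/-- the embedding of a quadratic extension -/
noncomputable def Quad.emb {K L : Type*} [Field K] [Field L] [Algebra F K] [Algebra F L]
    (q : Quad F K) (s : L) (hs : algebraMap F L q.x = s * s) : K →ₐ[F] L :=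
  AlgHom.ofLinearMap
    ((Algebra.linearMap F L) ∘ₗ q.re + (LinearMap.mulRight F s) ∘ₗ (Algebra.linearMap F L) ∘ₗ q.im)
    (by simp [q.re_eq (z := 1) (u := 1) (v := 0) (by simp)])
    (fun z w => by
      have : z * w = algebraMap F K (q.re z * q.re w + q.x * q.im z * q.im w) +
          algebraMap F K (q.re z * q.im w + q.im z * q.re w) * q.r := by
        conv_lhs => rw [q.spec z, q.spec w]
        simp only [map_add, map_mul, ← q.hr]
        ring
      simp only [LinearMap.add_apply, LinearMap.comp_apply, Algebra.linearMap_apply,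
        LinearMap.mulRight_apply, q.re_eq this, q.im_eq this, map_add, map_mul, hs]
      ring)

theorem H7.hq (h : H7 F) {K : Type*} [Field K] [Algebra F K] (q : Quad F K) : HQ F K := by
  intro w hw
  have := neZero_two F K
  obtain ⟨l, rfl, -, hl⟩ := exists_an w
  have hl' := NZ.of_not_isot hl
  obtain ⟨k, hk, -⟩ := good_of_mem hl' hw
  obtain ⟨L, _, _, h1, h2, h3⟩ := h.split (l := 1 :: -q.x :: l) (by simp [hl', q.x_ne])
    (m := k + 1) (by simp [hk]; ring)
  have := neZero_two F L
  rw [show cl (1 :: -q.x :: l) = pf q.x + cl l by simp [pf]; ring, map_add, res_pf] at h3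
  have x0 : algebraMap F L q.x ≠ 0 := by simpa using q.x_ne
  obtain ⟨j, hj, s, hs⟩ := good_of_mem (l := [1, -algebraMap F L q.x]) (by simp [x0]) (by
    have := neg_mem (res_mem (K := L) hw)
    rwa [← eq_neg_of_add_eq_zero_left h3, show pf (algebraMap F L q.x) =
      cl [1, -algebraMap F L q.x] by simp [pf, sub_eq_add_neg]] at this)
  obtain rfl : j = 1 := by simp at hj; omega
  have hs' : algebraMap F L q.x = s * s := by simpa using hs
  rw [pf_of_isSquare x0 ⟨s, hs'⟩, zero_add] at h3
  let : Algebra K L := (q.emb s hs').toRingHom.toAlgebra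
  have : IsScalarTower F K L := IsScalarTower.of_algebraMap_eq fun a => ((q.emb s hs').commutes a).symm
  have : FiniteDimensional K L := Module.Finite.right F K L
  have h4 := Module.finrank_mul_finrank F K L
  have h5 : 0 < Module.finrank K L := Module.finrank_pos
  rw [q.finrank_eq] at h4
  rw [← res_res (K := K)] at h3
  have odd : (∀ l : List K, Isot (l.map (algebraMap K L)) → Isot l) → res F K (cl l) = 0 := by
    intro H
    obtain ⟨m, k1, -, k3⟩ := exists_an (res F K (cl l))
    have := dm_eq (mt (H m) k3)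
    rw [← res_cl, k1, h3, dm_zero, List.length_map] at this
    rw [← k1, List.length_eq_zero_iff.1 this.symm, cl_nil]
  obtain h6 | h6 | h6 : Module.finrank K L = 1 ∨ Module.finrank K L = 2 ∨
    Module.finrank K L = 3 := by omega
  · exact ⟨1, [], one_ne_zero, nz_nil, by simp [odd fun l => springer1 h6], by simp, Or.inl rfl⟩
  · obtain ⟨p⟩ := exists_quad h6
    obtain ⟨cs, k1, k2, k3⟩ := p.ker h3
    exact ⟨p.x, cs, p.x_ne, k1, k2, k3, Or.inr p.hns⟩
  · exact ⟨1, [], one_ne_zero, nz_nil, by simp [odd fun l => springer3 h6], by simp, Or.inl rfl⟩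

theorem exists_ext {z : F} (hz : ¬ IsSquare z) :
    ∃ (K : Type) (_ : Field K) (_ : Algebra F K) (q : Quad F K), q.x = z := by
  have : Fact (∀ r : F, r ^ 2 ≠ z + 0 * r) := ⟨fun r hr => hz ⟨r, by linear_combination -hr⟩⟩
  exact ⟨QuadraticAlgebra F z 0, _, _, ⟨z, QuadraticAlgebra.omega, hz, by ext <;> simp,
    fun y => ⟨(y.re, y.im), by ext <;> simp⟩⟩, rfl⟩

theorem H7.ha (h : H7 F) : HA F := by
  intro z a b c d hz ha hb hc hd
  obtain ⟨K, _, _, q, rfl⟩ := exists_ext hz
  exact albert_F q (h.hq q) ha hb hc hd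

theorem ns_of_sumSq (h : IsSumSq (-1 : F)) : NS F := by
  intro n hn
  by_cases h1 : IsSquare (-n)
  swap
  · exact ⟨-n, h1, nm_neg (ne_of_ns hn)⟩
  by_contra hc
  push Not at hc
  obtain ⟨r, hr⟩ := h1
  have r0 : r ≠ 0 := by rintro rfl; exact ne_of_ns hn (by simpa using hr)
  have key : ∀ c : F, IsSumSq c → IsSquare c := by
    intro c hc'
    induction hc' with
    | zero => exact IsSquare.zero
    | sq_add a _ ih =>
      obtain ⟨b, rfl⟩ := ih
      by_contra hne
      exact hc _ hne ⟨ne_of_ns hne, a, b / r, by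
        rw [show n = -(r * r) by linear_combination -hr]; field_simp; ring⟩
  obtain ⟨i, hi⟩ := key _ h
  exact hn ⟨i * r, by linear_combination -hr + r * r * hi⟩

theorem two_pow_eq_zero (h : IsSumSq (-1 : F)) : ∃ k, (2 : W F) ^ k = 0 := by
  have k1 : ∀ as : List F, Rep (PL as) 1 := by
    intro as
    induction as with
    | nil => exact rep_single.2 ⟨1, by ring⟩
    | cons a as ih => exact rep_append.2 ⟨1, 0, ih, rep_zero _, by ring⟩
  have k2 : ∀ c : F, IsSumSq c → ∃ j, Rep (PL (List.replicate j (-1))) c := by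
    intro c hc
    induction hc with
    | zero => exact ⟨0, rep_zero _⟩
    | sq_add a _ ih =>
      obtain ⟨j, hj⟩ := ih
      exact ⟨j + 1, rep_append.2 ⟨_, _, (k1 _).mul_sq a, rep_map.2 ⟨_, hj, rfl⟩, by ring⟩⟩
  obtain ⟨j, hj⟩ := k2 _ h
  have := round (fun a ha => by rw [List.eq_of_mem_replicate ha]; simp) (by simp) hj
  exact ⟨j + 1, by simpa [pp, pf_neg_one, pow_succ'] using this⟩

theorem H7.bound (h : H7 F) (h1 : IsSumSq (-1 : F)) : ∃ C, ∀ w : W F, dm w ≤ C := by
  obtain ⟨k, hk⟩ := two_pow_eq_zero h1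
  have hN := ns_of_sumSq h1
  have fin : ∀ x : F, ¬ IsSquare x → (IsSquare (-1 : F) ∨ x = -1) → ∃ C, ∀ w : W F, dm w ≤ C := by
    intro x hx hx'
    obtain ⟨K, _, _, q, rfl⟩ := exists_ext hx
    obtain ⟨n, hn, hn'⟩ := hN _ hx
    obtain ⟨K', _, _, q', rfl⟩ := exists_ext hn
    refine main q (h.hq q) ?_ (fun m hm => ?_) h.ha hN q' (h.hq q') hn' hk
    · rw [← pf_neg_one]
      refine pf_of_isSquare (by simp) ?_
      rcases hx' with ⟨i, hi⟩ | hi
      · exact ⟨algebraMap F K i, by rw [← map_mul, ← hi]; simp⟩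
      · exact ⟨q.r, by rw [q.hr, hi]; simp⟩
    · rw [← pf_neg_one]
      rcases hx' with hi | hi
      · rw [pf_of_isSquare (by simp) hi, zero_mul]
      · exact hi ▸ hm.pf_mul q.x_ne
  by_cases h2 : IsSquare (-1 : F)
  swap
  · exact fin _ h2 (Or.inr rfl)
  by_cases h3 : ∃ x : F, ¬ IsSquare x
  · obtain ⟨x, hx⟩ := h3
    exact fin x hx (Or.inl h2)
  push Not at h3
  refine ⟨1, fun w => ?_⟩
  obtain ⟨l, -, k1, k2⟩ := exists_an w
  rw [← k1]
  clear k1
  by_contra hlt
  match l, hlt, k2 with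
  | [], hlt, _ => simp at hlt
  | [_], hlt, _ => simp at hlt
  | a :: b :: l, _, k2 =>
    have hb : b ≠ 0 := NZ.of_not_isot k2 b (by simp)
    obtain ⟨t, ht⟩ := h3 (-a / b)
    exact k2 (isot_cons.2 (Or.inl (rep_cons.2 ⟨t, 0, rep_zero _, by
      rw [sq, ← ht]; field_simp; ring⟩)))

theorem H7.final (h : H7 F) (h1 : IsSumSq (-1 : F)) :
    ∃ n : ℕ, ∀ w : Fin n → F, ∃ v : Fin n → F, v ≠ 0 ∧ ∑ i, w i * v i ^ 2 = 0 := by
  obtain ⟨C, hC⟩ := h.bound h1
  refine ⟨C + 1, fun w => ?_⟩
  have hl : (List.ofFn w).length = C + 1 := List.length_ofFn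
  obtain ⟨v, hv, h0⟩ := (isot_iff (l := List.ofFn w)).2 (by have := hC (cl (List.ofFn w)); omega)
  refine ⟨fun i => v (i.cast hl.symm), fun hz => hv ?_, ?_⟩
  · ext i; simpa using congrFun hz (i.cast hl)
  · rw [← h0, bf_apply]
    exact Fintype.sum_equiv (finCongr hl.symm) _ _ (fun i => by
      simp only [finCongr_apply, List.get_ofFn, sq, mul_assoc]; rfl)

end Hyp

end Pool.Agent.P.MP_8513f1_al
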