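import Pool.Agent.P.MP_8513f1_al.Core

/-! The bound on anisotropic dimensions. -/

set_option autoImplicit false
set_option linter.unusedSectionVars false

namespace Pool.Agent.P.MP_8513f1_al

section Main
variable {F K : Type*} [Field F] [Field K] [Algebra F K] [NeZero (2 : F)]

theorem z4 (hq : HQ F K) (h2 : (2 : W K) = 0) {w : W F} (hw : w ∈ II F ^ 4) :
    res F K w = 0 := by
  refine ind4 (Q := fun w => res F K w = 0) (map_zero _)
    (fun x y hx hy => by rw [map_add, hx, hy, add_zero]) (fun e a b c d _ ha hb hc hd => ?_) hw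
  obtain ⟨t, ht⟩ := link_K hq ha hb hc hd
  rw [map_mul, ht, map_mul, map_mul, map_ofNat, h2]; simp

theorem z5 (q : Quad F K) (hq : HQ F K) (h2 : (2 : W K) = 0) {φ : W K} (h : φ ∈ II K ^ 5) :
    φ = 0 := by
  have h1 : (II F ^ 4).map (res F K) = ⊥ := by
    rw [Ideal.map_eq_bot_iff_le_ker]
    exact fun w hw => z4 hq h2 hw
  have := q.pow_le 4 h
  rwa [h1, Ideal.mul_bot, Ideal.mem_bot] at this

theorem nn_sub (q : Quad F K) {ν : W F} (h : ν ∈ NN q.x 2) : ∃ φ ∈ II K ^ 3, q.s φ = ν := by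
  refine nn_ind (Q := fun ν => ∃ φ ∈ II K ^ 3, q.s φ = ν) ⟨0, zero_mem _, map_zero _⟩ ?_ ?_ h
  · rintro _ _ ⟨φ, h1, rfl⟩ ⟨ψ, h2, rfl⟩
    exact ⟨φ + ψ, add_mem h1 h2, map_add _ _ _⟩
  · intro e m a b he hm ha hb
    obtain ⟨z, hz, rfl⟩ := q.exists_N hm
    by_cases hv : q.im z = 0
    · refine ⟨0, zero_mem _, ?_⟩
      rw [pf_of_isSquare hm.1 ⟨q.re z, by rw [Quad.N, hv]; ring⟩]; simp
    · refine ⟨res F K (-g (e * q.im z) * (pf a * pf b)) * pf z, ?_, ?_⟩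
      · rw [mul_comm]
        exact mul_mem_succ (pf_mem hz) (res_mem (Ideal.mul_mem_left _ _ (pf2_mem ha hb)))
      · rw [q.s_res_mul, pf.eq_1 z, map_sub, q.s_one, q.s_g, g_mul]
        linear_combination g e * pf a * pf b * pf (q.N z) * g_sq hv

theorem s2K (q : Quad F K) (hA : HA F) (hN : NS F) {k : ℕ} (hk : (2 : W F) ^ k = 0) (φ : W K) :
    ∃ θ, dm θ ≤ 22 + 8 * 2 ^ k ∧ φ - θ ∈ II K ^ 3 := by
  obtain ⟨θ1, h1, h2⟩ := red2 hA q.hns (q.s φ)
  obtain ⟨θ2, ι, -, h3, h4⟩ := red3 hA hN q.hns k h2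
  rw [hk, zero_mul, sub_zero] at h4
  obtain ⟨ψ, h5, h6⟩ := nn_sub q h4
  obtain ⟨a, h7⟩ := q.exists_close (φ - ψ)
  obtain ⟨θ3, h8, h9⟩ := red2 hA q.hns a
  rw [map_sub, h6, show q.s φ - (q.s φ - θ1 - θ2) = θ1 + θ2 by ring] at h7
  refine ⟨φ - ψ - res F K a + res F K θ3, ?_, ?_⟩
  · have := dm_add (φ - ψ - res F K a) (res F K θ3)
    have := dm_res (K := K) θ3
    have := dm_add θ1 θ2
    omega
  · have := add_mem h5 (res_mem (K := K) h9)
    rwa [show ψ + res F K (a - θ3) = φ - (φ - ψ - res F K a + res F K θ3) by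
      rw [map_sub]; ring] at this

/-- the forms killed by a slot -/
def JJ (F : Type*) {K : Type*} [Field F] [Field K] [Algebra F K] (z : K) : Ideal (W F) :=
  Ideal.comap (res F K) (LinearMap.ker (LinearMap.mul (W K) (W K) (pf z)))

theorem mem_JJ {z : K} {w : W F} : w ∈ JJ F z ↔ pf z * res F K w = 0 := Iff.rfl

theorem jj3 (q : Quad F K) (hq : HQ F K) (h2 : (2 : W K) = 0) {z : K} (hz : z ≠ 0) (a b c : F)
    (ha : a ≠ 0) (hb : b ≠ 0) (hc : c ≠ 0) (h : pf (q.N z) * (pf a * pf b * pf c) = 0) :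
    pf a * pf b * pf c ∈ JJ F z := by
  have hp : pp [a, b, c] = pf a * pf b * pf c := by simp [mul_assoc]
  rw [mem_JJ, ← hp]
  refine q.norm_kill (by simp [ha, hb, hc]) (fun f hf => ?_) hz (hp ▸ h)
  rw [← res_pf, ← map_mul, hp]
  exact z4 hq h2 (mul_mem_succ (pf_mem hf) (pf3_mem ha hb hc))

theorem jjN (q : Quad F K) (hq : HQ F K) (h2 : (2 : W K) = 0) {z : K} (hz : z ≠ 0) {w : W F}
    (hw : w ∈ NN (q.N z) 2 ⊔ II F ^ 4) : w ∈ JJ F z := by
  obtain ⟨ν, hν, κ, hκ, rfl⟩ := Submodule.mem_sup.1 hw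
  refine add_mem ?_ (by rw [mem_JJ, z4 hq h2 hκ, mul_zero])
  exact nn_ind (Q := fun w => w ∈ JJ F z) (zero_mem _) (fun _ _ => add_mem)
    (fun e m a b _ hm ha hb => Ideal.mul_mem_left _ _ (jj3 q hq h2 hz m a b hm.1 ha hb (by
      linear_combination pf a * pf b * hm.pf_mul (q.N_ne hz)))) hν

theorem bil (q : Quad F K) (hq : HQ F K) (h2 : (2 : W K) = 0) {z y : K} (hz : z ≠ 0) (hy : y ≠ 0)
    {ρ : W F} (hρ : ρ ∈ II F ^ 3) (h : ρ ∈ JJ F (z * y)) :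
    pf z * res F K ρ = pf y * res F K (-ρ) := by
  have := z5 q hq h2 (g_mul_sub hz (mul_mem_succ (pf_mem hy) (res_mem (K := K) hρ)))
  rw [mem_JJ, pf_mul] at h
  rw [map_neg]
  linear_combination h - this

theorem t1 {K' : Type*} [Field K'] [Algebra F K'] (q : Quad F K) (hq : HQ F K)
    (h2 : (2 : W K) = 0) (hn2 : ∀ m, Nm q.x m → 2 * pf m = 0) (q' : Quad F K') (hq' : HQ F K')
    {y : K} (hy : y ≠ 0) (hyN : q.N y = q'.x) {z : K} (hz : z ≠ 0) {a b c : F} (ha : a ≠ 0)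
    (hb : b ≠ 0) (hc : c ≠ 0) :
    ∃ σ ∈ II F ^ 3, pf z * res F K (pf a * pf b * pf c) = pf y * res F K σ := by
  have hn := q.N_ne hz
  have hzy := mul_ne_zero hz hy
  by_cases h0 : pf (q.N z) * (pf a * pf b * pf c) = 0
  · exact ⟨0, zero_mem _, by rw [mem_JJ.1 (jj3 q hq h2 hz a b c ha hb hc h0)]; simp⟩
  obtain ⟨t, w, hw, h1⟩ := rep_cons.1 (pure_rep q' hq' hn ha hb hc (hn2 _ (q.nm_N hz)) h0)
  by_cases hw0 : w = 0
  · refine ⟨_, neg_mem (pf3_mem ha hb hc), bil q hq h2 hz hy (pf3_mem ha hb hc)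
      (jj3 q hq h2 hzy a b c ha hb hc ?_)⟩
    rw [pf_of_isSquare (q.N_ne hzy) ⟨q.N z * t, by
      rw [q.N_mul, hyN]; rw [hw0] at h1; linear_combination -(q.N z) * h1⟩, zero_mul]
  obtain ⟨u, v, hu, hv, h3⟩ := pure_slot hn ha hb hc (neg_ne_zero.2 hw0) (JJ F z)
    (jj3 q hq h2 hz) (by simpa using hw)
  have h4 := jj3 q hq h2 hz (-q.N z) u v (neg_ne_zero.2 hn) hu hv (by
    linear_combination pf u * pf v * pf_mul_neg hn)
  have hnw := mul_ne_zero hn hw0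
  have h5 : pf a * pf b * pf c - pf (q.N z * w) * pf u * pf v ∈ JJ F z := by
    have := sub_mem h3 (Ideal.mul_mem_left _ (g (-w)) h4)
    rwa [show pf a * pf b * pf c - pf (-w) * pf u * pf v - g (-w) * (pf (-q.N z) * pf u * pf v) =
      pf a * pf b * pf c - pf (q.N z * w) * pf u * pf v by
        rw [show q.N z * w = -w * -q.N z by ring, pf_mul]; ring] at this
  have h6 : Nm (q.N (z * y)) (q.N z * w) :=
    ⟨hnw, q.N z * t, 1, by rw [q.N_mul, hyN]; linear_combination -(q.N z) * h1⟩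
  refine ⟨_, neg_mem (pf3_mem hnw hu hv), ?_⟩
  rw [← bil q hq h2 hz hy (pf3_mem hnw hu hv) (jj3 q hq h2 hzy _ u v hnw hu hv (by
    linear_combination pf u * pf v * h6.pf_mul (q.N_ne hzy)))]
  rw [mem_JJ, map_sub] at h5
  linear_combination h5

theorem t3 {K' : Type*} [Field K'] [Algebra F K'] (q : Quad F K) (hq : HQ F K)
    (h2 : (2 : W K) = 0) (hn2 : ∀ m, Nm q.x m → 2 * pf m = 0) (hA : HA F) (hN : NS F)
    (q' : Quad F K') (hq' : HQ F K') (hx : Nm q.x q'.x) {φ : W K} (h : φ ∈ II K ^ 4) :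
    dm φ ≤ 16 := by
  obtain ⟨y, hy, hyN⟩ := q.exists_N hx
  have k1 : ∃ σ ∈ II F ^ 3, φ = pf y * res F K σ := by
    have hQ0 : ∃ σ ∈ II F ^ 3, (0 : W K) = pf y * res F K σ := ⟨0, zero_mem _, by simp⟩
    have hQ : ∀ a b : W K, (∃ σ ∈ II F ^ 3, a = pf y * res F K σ) →
        (∃ σ ∈ II F ^ 3, b = pf y * res F K σ) → ∃ σ ∈ II F ^ 3, a + b = pf y * res F K σ := by
      rintro _ _ ⟨σ, h1, rfl⟩ ⟨τ, h3, rfl⟩
      exact ⟨σ + τ, add_mem h1 h3, by rw [map_add, mul_add]⟩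
    have := q.pow_le 3 h
    rw [Ideal.map, mul_comm] at this
    refine span_mul_ind hQ0 hQ ?_ this
    rintro _ ⟨ρ, hρ, rfl⟩ ι hι
    refine ind1 (Q := fun ι => ∃ σ ∈ II F ^ 3, res F K ρ * ι = pf y * res F K σ)
      (by simpa using hQ0) (fun a b ha hb => by rw [mul_add]; exact hQ _ _ ha hb)
      (fun e z he hz => ?_) hι
    have e1 := z5 q hq h2 (g_mul_sub he (mul_mem_succ (pf_mem hz) (res_mem (K := K) hρ)))
    rw [show res F K ρ * (g e * pf z) = pf z * res F K ρ by linear_combination e1]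
    clear e1
    refine ind3 (Q := fun ρ => ∃ σ ∈ II F ^ 3, pf z * res F K ρ = pf y * res F K σ)
      (by simpa using hQ0) (fun a b ha hb => by rw [map_add, mul_add]; exact hQ _ _ ha hb)
      (fun e a b c he ha hb hc => ?_) hρ
    have e2 := z4 hq h2 (g_mul_sub he (pf3_mem ha hb hc))
    rw [map_sub, sub_eq_zero] at e2
    rw [e2]
    exact t1 q hq h2 hn2 q' hq' hy hyN hz ha hb hc
  obtain ⟨σ, h1, rfl⟩ := k1
  obtain ⟨a, b, c, -, -, -, h3⟩ := merge3 hA hN q'.hns h1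
  have h4 := jjN q hq h2 hy (hyN ▸ h3)
  rw [mem_JJ, map_sub, mul_sub, sub_eq_zero] at h4
  rw [h4]
  exact (dm_mul _ _).trans (Nat.mul_le_mul (dm_pf y) ((dm_res _).trans (dm_pf3 a b c)))

theorem main {K' : Type*} [Field K'] [Algebra F K'] (q : Quad F K) (hq : HQ F K)
    (h2 : (2 : W K) = 0) (hn2 : ∀ m, Nm q.x m → 2 * pf m = 0) (hA : HA F) (hN : NS F)
    (q' : Quad F K') (hq' : HQ F K') (hx : Nm q.x q'.x) {k : ℕ} (hk : (2 : W F) ^ k = 0) :
    ∃ C, ∀ w : W F, dm w ≤ C := by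
  have k1 : ∀ w : W F, dm (res F K w) ≤ 71 + 16 * 2 ^ k := by
    intro w
    obtain ⟨θ, h1, h3⟩ := red2 hA q.hns w
    obtain ⟨β, cs, hβ, -, h4, -, -⟩ := hq _ (Ideal.pow_le_pow_right (by norm_num) h3)
    obtain ⟨θ', h5, h6⟩ := s2K q hA hN hk (cl cs)
    have h7 := t3 q hq h2 hn2 hA hN q' hq' hx (mul_mem_succ (pf_mem hβ) h6)
    rw [show res F K w = res F K θ + pf β * θ' + pf β * (cl cs - θ') by
      rw [map_sub] at h4; linear_combination h4]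
    have := dm_add (res F K θ + pf β * θ') (pf β * (cl cs - θ'))
    have := dm_add (res F K θ) (pf β * θ')
    have := dm_res (K := K) θ
    have := (dm_mul (pf β) θ').trans (Nat.mul_le_mul (dm_pf β) h5)
    omega
  have k2 : ∀ j : ℕ, ∃ C, ∀ w : W F, ∃ θ ξ, w = θ + pf q.x ^ j * ξ ∧ dm θ ≤ C := by
    intro j
    induction j with
    | zero => exact ⟨0, fun w => ⟨0, w, by simp, by simp⟩⟩
    | succ j ih =>
      obtain ⟨C, hC⟩ := ih
      refine ⟨C + 2 ^ j * (71 + 16 * 2 ^ k), fun w => ?_⟩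
      obtain ⟨θ, ξ, rfl, h1⟩ := hC w
      obtain ⟨θ', ξ', rfl, h3⟩ := q.excellent' ξ
      refine ⟨θ + pf q.x ^ j * θ', ξ', by ring, (dm_add _ _).trans (Nat.add_le_add h1 ?_)⟩
      exact (dm_mul _ _).trans (Nat.mul_le_mul (dm_pow (dm_pf _) j) (h3.trans (k1 _)))
  obtain ⟨C, hC⟩ := k2 (k + 1)
  have k3 : ∀ j : ℕ, pf q.x ^ (j + 1) = 2 ^ j * pf q.x := by
    intro j
    induction j with
    | zero => simp
    | succ j ih => rw [pow_succ, ih, mul_assoc, pf_sq q.x_ne]; ring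
  refine ⟨C, fun w => ?_⟩
  obtain ⟨θ, ξ, rfl, h1⟩ := hC w
  rwa [k3, hk, zero_mul, zero_mul, add_zero]

end Main

end Pool.Agent.P.MP_8513f1_al
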