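import Pool.Agent.P.MP_8513f1_al.Witt

/-! Pfister forms, the fundamental ideal, discriminant, linkage lemmas. -/

set_option autoImplicit false
set_option linter.unusedSectionVars false

namespace Pool.Agent.P.MP_8513f1_al

variable {F : Type*} [Field F]

def pf (a : F) : W F := 1 - g a

theorem pf_mul (a b : F) : pf (a * b) = pf a + g a * pf b := by simp only [pf, g_mul]; ring
@[simp] theorem pf_one : pf (1 : F) = 0 := by simp [pf]
theorem pf_neg_one : pf (-1 : F) = 2 := by simp [pf]; norm_num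
theorem pf_sq {a : F} (ha : a ≠ 0) : pf a * pf a = 2 * pf a := by
  simp only [pf]; linear_combination g_sq ha
theorem pf_mul_sq (a : F) {t : F} (ht : t ≠ 0) : pf (a * t ^ 2) = pf a := by
  simp only [pf, g_mul_sq a ht]
theorem g_mul_pf {a : F} (ha : a ≠ 0) : g a * pf a = -pf a := by
  simp only [pf]; linear_combination -g_sq ha
theorem pf_mul_neg {a : F} (ha : a ≠ 0) : pf a * pf (-a) = 0 := by
  simp only [pf, g_neg]; linear_combination -g_sq ha
theorem g_of_isSquare {a : F} (ha : a ≠ 0) (h : IsSquare a) : g a = 1 := by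
  obtain ⟨t, rfl⟩ := h
  rw [g_mul, g_sq (by rintro rfl; simp at ha)]
theorem pf_of_isSquare {a : F} (ha : a ≠ 0) (h : IsSquare a) : pf a = 0 := by
  simp [pf, g_of_isSquare ha h]
theorem g_eq_of_isSquare {a b : F} (ha : a ≠ 0) (hb : b ≠ 0) (h : IsSquare (a * b)) :
    g a = g b := by
  have := g_of_isSquare (mul_ne_zero ha hb) h
  rw [g_mul] at this
  linear_combination (g b) * this - (g a) * g_sq hb
theorem dm_pf (a : F) : dm (pf a) ≤ 2 := by
  have := dm_le [1, -a]
  simpa [pf, sub_eq_add_neg] using this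
theorem dm_pf2 (a b : F) : dm (pf a * pf b) ≤ 4 :=
  (dm_mul _ _).trans (Nat.mul_le_mul (dm_pf a) (dm_pf b))
theorem dm_pf3 (a b c : F) : dm (pf a * pf b * pf c) ≤ 8 :=
  (dm_mul _ _).trans (Nat.mul_le_mul (dm_pf2 a b) (dm_pf c))

theorem rep_map {l : List F} {d c : F} : Rep (l.map (d * ·)) c ↔ ∃ y, Rep l y ∧ c = d * y := by
  induction l generalizing c with
  | nil => simp
  | cons a l ih =>
    simp only [List.map_cons, rep_cons, ih]
    constructor
    · rintro ⟨t, _, ⟨y, hy, rfl⟩, rfl⟩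
      exact ⟨_, ⟨t, y, hy, rfl⟩, by ring⟩
    · rintro ⟨_, ⟨t, y, hy, rfl⟩, rfl⟩
      exact ⟨t, _, ⟨y, hy, rfl⟩, by ring⟩

theorem isot_map {l : List F} {d : F} (hd : d ≠ 0) (h : Isot (l.map (d * ·))) : Isot l := by
  induction l with
  | nil => simp at h
  | cons a l ih =>
    rw [List.map_cons, isot_cons, rep_map] at h
    rcases h with ⟨y, hy, h⟩ | h
    · obtain rfl : y = -a := mul_left_cancel₀ hd (by rw [← h]; ring)
      exact isot_cons.2 (Or.inl hy)
    · exact isot_cons.2 (Or.inr (ih h))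

theorem NZ.map {l : List F} (hl : NZ l) {d : F} (hd : d ≠ 0) : NZ (l.map (d * ·)) := by
  intro a ha
  obtain ⟨b, hb, rfl⟩ := List.mem_map.1 ha
  exact mul_ne_zero hd (hl b hb)

def PL : List F → List F
  | [] => [1]
  | a :: as => PL as ++ (PL as).map (-a * ·)

def pp (as : List F) : W F := (as.map pf).prod

@[simp] theorem pp_nil : pp ([] : List F) = 1 := rfl
@[simp] theorem pp_cons (a : F) (as : List F) : pp (a :: as) = pf a * pp as := by simp [pp]

theorem cl_P (as : List F) : cl (PL as) = pp as := by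
  induction as with
  | nil => simp [PL]
  | cons a as ih => simp only [PL, cl_append, cl_map_mul, ih, pp_cons, g_neg, pf]; ring

theorem length_P (as : List F) : (PL as).length = 2 ^ as.length := by
  induction as with
  | nil => rfl
  | cons a as ih => simp [PL, ih]; ring

theorem nz_P {as : List F} (h : NZ as) : NZ (PL as) := by
  induction as with
  | nil => simp [PL]
  | cons a as ih =>
    rw [nz_cons] at h
    exact nz_append.2 ⟨ih h.2, (ih h.2).map (neg_ne_zero.2 h.1)⟩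

theorem round_aux {as : List F} (h : NZ as) :
    (∀ c, c ≠ 0 → Rep (PL as) c → g c * pp as = pp as) ∧ (Isot (PL as) → pp as = 0) := by
  induction as with
  | nil =>
    refine ⟨fun c hc hr => ?_, fun hi => ?_⟩
    · obtain ⟨t, rfl⟩ := rep_single.1 hr
      rw [g_mul_sq _ (by rintro rfl; simp at hc)]; simp
    · exact absurd (isot_single.1 hi) one_ne_zero
  | cons a as ih =>
    rw [nz_cons] at h
    obtain ⟨ih1, ih2⟩ := ih h.2
    have ha := h.1
    refine ⟨fun c hc hr => ?_, fun hi => ?_⟩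
    · obtain ⟨x, _, hx, hy', rfl⟩ := rep_append.1 hr
      obtain ⟨y, hy, rfl⟩ := rep_map.1 hy'
      rw [pp_cons]
      by_cases hy0 : y = 0
      · subst hy0
        simp only [mul_zero, add_zero] at hc ⊢
        linear_combination (pf a) * ih1 x hc hx
      have e2 := ih1 y hy0 hy
      by_cases hx0 : x = 0
      · subst hx0
        rw [zero_add, g_mul, g_neg]
        linear_combination (-g a * pf a) * e2 - pp as * g_mul_pf ha
      have e1 := ih1 x hx0 hx
      have e3 := g_add x (-a * y)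
      have e4 := g_sq hc
      simp only [g_mul, g_neg] at e3
      set c := g (x + -a * y)
      simp only [pf]
      linear_combination (c * pp as) * e3 + (pp as - g x * g a * g y * pp as) * e4
        - c * e1 + c * g a * e2 - g a * g x * e2 - g a * e1
    · rw [pp_cons]
      rcases isot_append.1 hi with hi | hi | ⟨c, hc, h1, h2⟩
      · rw [ih2 hi, mul_zero]
      · rw [ih2 (isot_map (neg_ne_zero.2 ha) hi), mul_zero]
      · obtain ⟨y, hy, h3⟩ := rep_map.1 h2
        obtain rfl : c = a * y := by linear_combination -h3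
        have e1 := ih1 _ hc h1
        have e2 := ih1 y (by rintro rfl; simp at hc) hy
        rw [g_mul] at e1
        simp only [pf]
        linear_combination -e1 + g a * e2

theorem round {as : List F} (h : NZ as) {c : F} (hc : c ≠ 0) (hr : Rep (PL as) c) :
    pf c * pp as = 0 := by
  simp only [pf]; linear_combination -(round_aux h).1 c hc hr

theorem pp_eq_zero {as : List F} (h : NZ as) (hi : Isot (PL as)) : pp as = 0 := (round_aux h).2 hi

theorem rep_two {a b c : F} : Rep [a, b] c ↔ ∃ s t, c = a * s ^ 2 + b * t ^ 2 := by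
  rw [rep_cons]
  simp only [rep_single]
  constructor
  · rintro ⟨s, _, ⟨t, rfl⟩, rfl⟩; exact ⟨s, t, rfl⟩
  · rintro ⟨s, t, rfl⟩; exact ⟨s, _, ⟨t, rfl⟩, rfl⟩

theorem rep_three {a b c d : F} :
    Rep [a, b, c] d ↔ ∃ s t u, d = a * s ^ 2 + b * t ^ 2 + c * u ^ 2 := by
  rw [rep_cons]
  simp only [rep_two]
  constructor
  · rintro ⟨s, _, ⟨t, u, rfl⟩, rfl⟩; exact ⟨s, t, u, by ring⟩
  · rintro ⟨s, t, u, rfl⟩; exact ⟨s, _, ⟨t, u, rfl⟩, by ring⟩

/-- `m` is a norm from the square root of `n` -/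
def Nm (n m : F) : Prop := m ≠ 0 ∧ ∃ s t, m = s ^ 2 - n * t ^ 2

theorem Nm.mul {n m m' : F} (h : Nm n m) (h' : Nm n m') : Nm n (m * m') := by
  obtain ⟨h0, s, t, rfl⟩ := h
  obtain ⟨h1, s', t', rfl⟩ := h'
  exact ⟨mul_ne_zero h0 h1, s * s' + n * t * t', s * t' + t * s', by ring⟩

theorem Nm.pf_mul {n m : F} (h : Nm n m) (hn : n ≠ 0) : pf n * pf m = 0 := by
  obtain ⟨h0, s, t, rfl⟩ := h
  have := round (as := [n]) (by simpa using hn) h0 (rep_two.2 ⟨s, t, by ring⟩)
  simpa [mul_comm] using this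

theorem nm_neg {n : F} (hn : n ≠ 0) : Nm n (-n) := ⟨neg_ne_zero.2 hn, 0, 1, by ring⟩

theorem nm_zero_or (n s t : F) : ∃ m u, Nm n m ∧ s ^ 2 - n * t ^ 2 = m * u ^ 2 := by
  by_cases h : s ^ 2 - n * t ^ 2 = 0
  · exact ⟨1, 0, ⟨one_ne_zero, 1, 0, by ring⟩, by rw [h]; ring⟩
  · exact ⟨_, 1, ⟨h, s, t, rfl⟩, by ring⟩

/-! ### the fundamental ideal -/

def II (F : Type*) [Field F] : Ideal (W F) := Ideal.span {w | ∃ a, a ≠ 0 ∧ w = pf a}

theorem pf_mem {a : F} (ha : a ≠ 0) : pf a ∈ II F := Ideal.subset_span ⟨a, ha, rfl⟩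
theorem two_mem : (2 : W F) ∈ II F := pf_neg_one (F := F) ▸ pf_mem (neg_ne_zero.2 one_ne_zero)

theorem mul_mem_succ {k : ℕ} {x y : W F} (hx : x ∈ II F) (hy : y ∈ II F ^ k) :
    x * y ∈ II F ^ (k + 1) := by rw [pow_succ']; exact Ideal.mul_mem_mul hx hy
theorem pf2_mem {a b : F} (ha : a ≠ 0) (hb : b ≠ 0) : pf a * pf b ∈ II F ^ 2 :=
  mul_mem_succ (pf_mem ha) (by simpa using pf_mem hb)
theorem pf3_mem {a b c : F} (ha : a ≠ 0) (hb : b ≠ 0) (hc : c ≠ 0) :
    pf a * pf b * pf c ∈ II F ^ 3 := by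
  rw [mul_assoc]; exact mul_mem_succ (pf_mem ha) (pf2_mem hb hc)
theorem pf4_mem {a b c d : F} (ha : a ≠ 0) (hb : b ≠ 0) (hc : c ≠ 0) (hd : d ≠ 0) :
    pf a * pf b * pf c * pf d ∈ II F ^ 4 := by
  rw [mul_assoc, mul_assoc, ← mul_assoc (pf b)]; exact mul_mem_succ (pf_mem ha) (pf3_mem hb hc hd)
theorem g_mul_sub {k : ℕ} {c : F} (hc : c ≠ 0) {x : W F} (hx : x ∈ II F ^ k) :
    g c * x - x ∈ II F ^ (k + 1) := by
  have := neg_mem (mul_mem_succ (pf_mem hc) hx)
  rwa [show -(pf c * x) = g c * x - x by simp only [pf]; ring] at this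

theorem span_mul_ind {S : Set (W F)} {J : Ideal (W F)} {Q : W F → Prop} (h0 : Q 0)
    (hadd : ∀ x y, Q x → Q y → Q (x + y)) (hs : ∀ s ∈ S, ∀ y ∈ J, Q (s * y)) {w : W F}
    (hw : w ∈ Ideal.span S * J) : Q w := by
  refine Submodule.mul_induction_on hw (fun x hx y hy => ?_) hadd
  induction hx using Submodule.span_induction generalizing y with
  | mem s h => exact hs s h y hy
  | zero => simpa using h0
  | add a b _ _ ha hb => rw [add_mul]; exact hadd _ _ (ha y hy) (hb y hy)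
  | smul r a _ ha =>
    rw [smul_eq_mul, mul_comm r, mul_assoc]
    exact ha _ (J.mul_mem_left r hy)

theorem pow_ind (k : ℕ) {Q : W F → Prop} (h0 : Q 0) (hadd : ∀ x y, Q x → Q y → Q (x + y))
    (hs : ∀ c as, c ≠ 0 → NZ as → as.length = k → Q (g c * pp as)) {w : W F}
    (hw : w ∈ II F ^ k) : Q w := by
  induction k generalizing Q w with
  | zero =>
    induction w using W.induction with
    | h0 => exact h0
    | hg a =>
      by_cases ha : a = 0
      · simpa [ha] using h0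
      · simpa using hs a [] ha nz_nil rfl
    | hadd x y hx hy => exact hadd _ _ (hx (by simp)) (hy (by simp))
  | succ k ih =>
    rw [pow_succ'] at hw
    refine span_mul_ind h0 hadd ?_ hw
    rintro _ ⟨a, ha, rfl⟩ y hy
    refine ih (Q := fun y => Q (pf a * y)) (by simpa using h0)
      (fun x y hx hy => by rw [mul_add]; exact hadd _ _ hx hy) (fun c as hc has hl => ?_) hy
    have := hs c (a :: as) hc (nz_cons.2 ⟨ha, has⟩) (by simp [hl])
    rwa [pp_cons, mul_left_comm] at this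

theorem ind1 {Q : W F → Prop} (h0 : Q 0) (hadd : ∀ x y, Q x → Q y → Q (x + y))
    (hs : ∀ e a, e ≠ 0 → a ≠ 0 → Q (g e * pf a)) {w : W F} (hw : w ∈ II F) : Q w := by
  refine pow_ind 1 h0 hadd (fun c as hc has hl => ?_) (by simpa using hw)
  match as, hl with
  | [a], _ => simp at has; simpa using hs c a hc has

theorem ind2 {Q : W F → Prop} (h0 : Q 0) (hadd : ∀ x y, Q x → Q y → Q (x + y))
    (hs : ∀ e a b, e ≠ 0 → a ≠ 0 → b ≠ 0 → Q (g e * (pf a * pf b))) {w : W F}
    (hw : w ∈ II F ^ 2) : Q w := by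
  refine pow_ind 2 h0 hadd (fun c as hc has hl => ?_) hw
  match as, hl with
  | [a, b], _ => simp at has; simpa using hs c a b hc has.1 has.2

theorem ind3 {Q : W F → Prop} (h0 : Q 0) (hadd : ∀ x y, Q x → Q y → Q (x + y))
    (hs : ∀ e a b c, e ≠ 0 → a ≠ 0 → b ≠ 0 → c ≠ 0 → Q (g e * (pf a * pf b * pf c))) {w : W F}
    (hw : w ∈ II F ^ 3) : Q w := by
  refine pow_ind 3 h0 hadd (fun c as hc has hl => ?_) hw
  match as, hl with
  | [a, b, d], _ => simp at has; simpa [mul_assoc] using hs c a b d hc has.1 has.2.1 has.2.2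

theorem ind4 {Q : W F → Prop} (h0 : Q 0) (hadd : ∀ x y, Q x → Q y → Q (x + y))
    (hs : ∀ e a b c d, e ≠ 0 → a ≠ 0 → b ≠ 0 → c ≠ 0 → d ≠ 0 →
      Q (g e * (pf a * pf b * pf c * pf d))) {w : W F}
    (hw : w ∈ II F ^ 4) : Q w := by
  refine pow_ind 4 h0 hadd (fun c as hc has hl => ?_) hw
  match as, hl with
  | [a, b, d, f], _ =>
    simp at has; simpa [mul_assoc] using hs c a b d f hc has.1 has.2.1 has.2.2.1 has.2.2.2

/-! ### determinants -/

theorem rep_split_det {l : List F} (hl : NZ l) {c : F} (h : Rep l c) (hc : c ≠ 0) :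
    ∃ l', Iso l (c :: l') ∧ IsSquare (l.prod * (c :: l').prod) := by
  induction l generalizing c with
  | nil => exact absurd (rep_nil.1 h) hc
  | cons a l ih =>
    rw [nz_cons] at hl
    obtain ⟨t, b, hb, rfl⟩ := rep_cons.1 h
    by_cases hb0 : b = 0
    · subst hb0
      have ht : t ≠ 0 := by rintro rfl; simp at hc
      rw [add_zero]
      exact ⟨l, (Iso.append (iso_sq hl.1 ht) (Iso.refl l)).symm,
        a * t * l.prod, by simp; ring⟩
    · obtain ⟨l', h1, r, h2⟩ := ih hl.2 hb hb0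
      have hc' : a * t ^ 2 + b * 1 ^ 2 ≠ 0 := by simpa using hc
      refine ⟨a * b * (a * t ^ 2 + b) :: l', ?_, a * (a * t ^ 2 + b) * r, ?_⟩
      · refine (h1.cons a).trans ?_
        have := (Iso.append (iso_two hl.1 hb0 hc') (Iso.refl l')).symm
        simpa using this
      · simp only [List.prod_cons] at h2 ⊢
        linear_combination (a * (a * t ^ 2 + b)) ^ 2 * h2

theorem NZ.prod_ne {l : List F} (h : NZ l) : l.prod ≠ 0 :=
  List.prod_ne_zero fun h0 => h 0 h0 rfl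

theorem isSquare_trans {a b c : F} (hb : b ≠ 0) (h : IsSquare (a * b)) (h' : IsSquare (b * c)) :
    IsSquare (a * c) := by
  obtain ⟨r, hr⟩ := h
  obtain ⟨s, hs⟩ := h'
  refine ⟨r * s / b, ?_⟩
  field_simp
  linear_combination (b * c) * hr + r ^ 2 * hs

variable [NeZero (2 : F)]

theorem Iso.det {l m : List F} (h : Iso l m) (hl : NZ l) : IsSquare (l.prod * m.prod) := by
  induction m generalizing l with
  | nil =>
    have := h.length_eq
    rw [List.length_eq_zero_iff.1 this]; simp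
  | cons c m ih =>
    have hc := (nz_cons.1 (h.nz hl)).1
    obtain ⟨l', h1, h2⟩ :=
      rep_split_det hl (h.symm.rep (rep_cons.2 ⟨1, 0, rep_zero _, by ring⟩)) hc
    have hl' := (nz_cons.1 (h1.nz hl)).2
    obtain ⟨r, hr⟩ := ih (Iso.cancel hc (h1.symm.trans h)) hl'
    refine isSquare_trans (h1.nz hl).prod_ne h2 ⟨c * r, ?_⟩
    simp only [List.prod_cons]
    linear_combination c ^ 2 * hr

def Good (l : List F) : Prop := ∃ k, l.length = 2 * k ∧ IsSquare ((-1) ^ k * l.prod)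

theorem hyp_prod (k : ℕ) : (hyp F k).prod = (-1) ^ k := by
  induction k with
  | zero => simp [hyp]
  | succ k ih => simp [hyp, ih]; ring

theorem Good.congr {l m : List F} (h : Good m) (hm : NZ m) (hl : NZ l) (hc : cl l = cl m) :
    Good l := by
  obtain ⟨k, h1, h2⟩ := h
  rcases le_total m.length l.length with hle | hle
  · obtain ⟨j, hj⟩ := iso_of_cl_le hl hm hc hle
    have h3 := hj.det hl
    have h4 := hj.length_eq
    simp only [List.length_append, hyp_length, List.prod_append, hyp_prod] at h3 h4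
    refine ⟨j + k, by omega, ?_⟩
    have := isSquare_trans (a := l.prod * (-1) ^ j) (c := (-1) ^ k) hm.prod_ne
      (by rwa [mul_assoc]) (by rwa [mul_comm])
    rwa [show l.prod * (-1) ^ j * (-1) ^ k = (-1) ^ (j + k) * l.prod by ring] at this
  · obtain ⟨j, hj⟩ := iso_of_cl_le hm hl hc.symm hle
    have h3 := hj.det hm
    have h4 := hj.length_eq
    simp only [List.length_append, hyp_length, List.prod_append, hyp_prod] at h3 h4
    obtain ⟨i, rfl⟩ : ∃ i, k = j + i := ⟨k - j, by omega⟩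
    refine ⟨i, by omega, ?_⟩
    have := isSquare_trans hm.prod_ne h2 h3
    obtain ⟨r, hr⟩ := this
    refine ⟨r, ?_⟩
    rw [← hr, pow_add]
    have : ((-1 : F) ^ j) ^ 2 = 1 := by rw [← pow_mul, mul_comm, pow_mul]; simp
    linear_combination -((-1) ^ i * l.prod) * this

theorem good_of_mem {l : List F} (hl : NZ l) (h : cl l ∈ II F ^ 2) : Good l := by
  have : ∃ m, NZ m ∧ cl m = cl l ∧ Good m := by
    refine ind2 (Q := fun w => ∃ m, NZ m ∧ cl m = w ∧ Good m) ⟨[], by simp, rfl, 0, by simp⟩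
      ?_ ?_ h
    · rintro _ _ ⟨m, h1, rfl, k, h2, h3⟩ ⟨m', h1', rfl, k', h2', h3'⟩
      refine ⟨m ++ m', by simp [h1, h1'], by simp, k + k', by simp; omega, ?_⟩
      have := h3.mul h3'
      rwa [show (-1) ^ k * m.prod * ((-1) ^ k' * m'.prod) =
        (-1) ^ (k + k') * (m ++ m').prod by simp; ring] at this
    · intro e a b he ha hb
      refine ⟨[e, -(e * a), -(e * b), e * a * b], by simp [he, ha, hb], ?_, 2, rfl,
        e ^ 2 * a * b, by simp; ring⟩
      simp [pf, g_mul]; ring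
  obtain ⟨m, h1, h2, h3⟩ := this
  exact h3.congr h1 hl h2.symm

theorem pure2 {a b f : F} (ha : a ≠ 0) (hb : b ≠ 0) (hf : f ≠ 0)
    (h : Rep [-a, -b, a * b] (-f)) : ∃ h, h ≠ 0 ∧ pf a * pf b = pf f * pf h := by
  have hl : NZ [-a, -b, a * b] := by simp [ha, hb]
  obtain ⟨l', h1, h2⟩ := rep_split_det hl h (neg_ne_zero.2 hf)
  have h3 := h1.cl_eq hl
  have h4 := h1.nz hl
  match l', h1.length_eq with
  | [x, y], _ =>
    simp only [nz_cons] at h4
    refine ⟨-x, neg_ne_zero.2 h4.2.1, ?_⟩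
    have : g y = g (-f * x) := by
      refine g_eq_of_isSquare h4.2.2.1 (mul_ne_zero h4.1 h4.2.1) ?_
      obtain ⟨r, hr⟩ := h2
      refine ⟨r / (a * b), ?_⟩
      simp only [List.prod_cons, List.prod_nil] at hr
      field_simp
      linear_combination hr
    simp only [cl_cons, cl_nil, g_neg, g_mul, this] at h3
    simp only [pf, g_neg]
    linear_combination h3

theorem common_value {l m : List F} (hl : NZ l) (hm : NZ m) (hl0 : l ≠ []) (hm0 : m ≠ [])
    (h : dm (cl l - cl m) < l.length + m.length) : ∃ c, c ≠ 0 ∧ Rep l c ∧ Rep m c := by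
  have : Isot (l ++ m.map (-1 * ·)) := by
    rw [isot_iff, cl_append, cl_map_mul]
    simpa [sub_eq_add_neg] using h
  have hd : ∀ {l : List F}, NZ l → l ≠ [] → ∃ c, c ≠ 0 ∧ Rep l c := by
    intro l hl hl0
    match l, hl0 with
    | a :: l, _ => exact ⟨a, (nz_cons.1 hl).1, rep_cons.2 ⟨1, 0, rep_zero _, by ring⟩⟩
  rcases isot_append.1 this with h | h | ⟨c, hc, h1, h2⟩
  · obtain ⟨c, hc, h'⟩ := hd hm hm0
    exact ⟨c, hc, h.univ hl c, h'⟩
  · obtain ⟨c, hc, h'⟩ := hd hl hl0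
    exact ⟨c, hc, h', (isot_map (by simp) h).univ hm c⟩
  · obtain ⟨y, hy, h3⟩ := rep_map.1 h2
    obtain rfl : c = y := by linear_combination -h3
    exact ⟨c, hc, h1, hy⟩

theorem link0 {a b c d : F} (ha : a ≠ 0) (hb : b ≠ 0) (hc : c ≠ 0) (hd : d ≠ 0)
    (h : dm (pf a * pf b - pf c * pf d) < 6) :
    ∃ s t t', s ≠ 0 ∧ t ≠ 0 ∧ t' ≠ 0 ∧ pf a * pf b = pf s * pf t ∧ pf c * pf d = pf s * pf t' := by
  obtain ⟨f, hf, h1, h2⟩ := common_value (l := [-a, -b, a * b]) (m := [-c, -d, c * d])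
    (by simp [ha, hb]) (by simp [hc, hd]) (by simp) (by simp) (by
      rwa [show cl [-a, -b, a * b] - cl [-c, -d, c * d] = pf a * pf b - pf c * pf d by
        simp [pf, g_mul]; ring])
  obtain ⟨t, ht, e1⟩ := pure2 ha hb (neg_ne_zero.2 hf) (by simpa using h1)
  obtain ⟨t', ht', e2⟩ := pure2 hc hd (neg_ne_zero.2 hf) (by simpa using h2)
  exact ⟨-f, t, t', neg_ne_zero.2 hf, ht, ht', e1, e2⟩

/-! ### working modulo norms -/

def NN (n : F) (k : ℕ) : Ideal (W F) := Ideal.span {w | ∃ m, Nm n m ∧ w = pf m} * II F ^ k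

theorem nn_mem {n m : F} (h : Nm n m) {k : ℕ} {y : W F} (hy : y ∈ II F ^ k) :
    pf m * y ∈ NN n k := Ideal.mul_mem_mul (Ideal.subset_span ⟨m, h, rfl⟩) hy

theorem NN.mul_mem {n : F} {k : ℕ} {x y : W F} (hx : x ∈ NN n k) (hy : y ∈ II F) :
    x * y ∈ NN n (k + 1) := by
  rw [NN, pow_succ, ← mul_assoc]; exact Ideal.mul_mem_mul hx hy

theorem nn_ind {n : F} {Q : W F → Prop} (h0 : Q 0) (hadd : ∀ x y, Q x → Q y → Q (x + y))
    (hs : ∀ e m a b, e ≠ 0 → Nm n m → a ≠ 0 → b ≠ 0 → Q (g e * (pf m * pf a * pf b))) {w : W F}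
    (hw : w ∈ NN n 2) : Q w := by
  refine span_mul_ind h0 hadd ?_ hw
  rintro _ ⟨m, hm, rfl⟩ y hy
  refine ind2 (Q := fun y => Q (pf m * y)) (by simpa using h0)
    (fun x y hx hy => by rw [mul_add]; exact hadd _ _ hx hy) (fun e a b he ha hb => ?_) hy
  have := hs e m a b he hm ha hb
  rwa [show g e * (pf m * pf a * pf b) = pf m * (g e * (pf a * pf b)) by ring] at this

theorem nn_change {n m : F} (h : Nm n m) (a : F) {y : F} (hy : y ≠ 0) :
    pf (a * m) * pf y - pf a * pf y ∈ NN n 1 := by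
  have := Ideal.mul_mem_left _ (g a) (nn_mem h (k := 1) (by simpa using pf_mem hy))
  rwa [show g a * (pf m * pf y) = pf (a * m) * pf y - pf a * pf y by rw [pf_mul]; ring] at this

def L6 (n a b : F) : List F := [-a, a * n, -b, b * n, a * b, -(a * b * n)]

theorem cl_L6 (n a b : F) : cl (L6 n a b) = pf n * (pf a * pf b - 1) := by
  simp [L6, pf, g_mul]; ring

theorem slot {n a b f : F} (ha : a ≠ 0) (hb : b ≠ 0) (hf : f ≠ 0) (h : Rep (L6 n a b) (-f)) :
    ∃ h, h ≠ 0 ∧ pf a * pf b - pf f * pf h ∈ NN n 1 := by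
  simp only [L6, rep_cons, rep_nil] at h
  obtain ⟨t1, _, ⟨t2, _, ⟨t3, _, ⟨t4, _, ⟨t5, _, ⟨t6, _, rfl, rfl⟩, rfl⟩, rfl⟩, rfl⟩, rfl⟩, h⟩ := h
  obtain ⟨n1, u1, k1, e1⟩ := nm_zero_or n t1 t2
  obtain ⟨n2, u2, k2, e2⟩ := nm_zero_or n t3 t4
  obtain ⟨n3, u3, k3, e3⟩ := nm_zero_or n t5 t6
  have k := (k1.mul k2).mul k3
  have z1 := k1.1
  have z2 := k2.1
  have ha' : a * (n1 * (n1 * n2 * n3)) ≠ 0 := mul_ne_zero ha (k1.mul k).1
  have hb' : b * (n2 * (n1 * n2 * n3)) ≠ 0 := mul_ne_zero hb (k2.mul k).1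
  obtain ⟨y, hy, e⟩ := pure2 ha' hb' (mul_ne_zero hf k.1)
    (rep_three.2 ⟨u1, u2, u3 / (n1 * n2), by
      field_simp
      linear_combination n3 * (h - a * e1 - b * e2 + a * b * e3)⟩)
  refine ⟨y, hy, ?_⟩
  have m1 := nn_change (k1.mul k) a hb'
  have m2 := nn_change (k2.mul k) b ha
  have m3 := nn_change k f hy
  have := sub_mem (sub_mem m3 m1) m2
  convert this using 1
  linear_combination e

theorem linkN {n a b c d : F} (hn : n ≠ 0) (ha : a ≠ 0) (hb : b ≠ 0) (hc : c ≠ 0) (hd : d ≠ 0)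
    (h : dm (pf n * (pf a * pf b - pf c * pf d)) < 12) :
    ∃ s t t', s ≠ 0 ∧ t ≠ 0 ∧ t' ≠ 0 ∧ pf a * pf b - pf s * pf t ∈ NN n 1 ∧
      pf c * pf d - pf s * pf t' ∈ NN n 1 := by
  obtain ⟨f, hf, h1, h2⟩ := common_value (l := L6 n a b) (m := L6 n c d)
    (by simp [L6, ha, hb, hn]) (by simp [L6, hc, hd, hn]) (by simp [L6]) (by simp [L6]) (by
      rwa [cl_L6, cl_L6, ← mul_sub, sub_sub_sub_cancel_right])
  obtain ⟨t, ht, e1⟩ := slot ha hb (neg_ne_zero.2 hf) (by simpa using h1)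
  obtain ⟨t', ht', e2⟩ := slot hc hd (neg_ne_zero.2 hf) (by simpa using h2)
  exact ⟨-f, t, t', neg_ne_zero.2 hf, ht, ht', e1, e2⟩

end Pool.Agent.P.MP_8513f1_al
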