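import Pool.Agent.P.MP_8513f1_al.Pfister

/-! Base change, quadratic extensions, the Scharlau transfer. -/

set_option autoImplicit false
set_option linter.unusedSectionVars false

namespace Pool.Agent.P.MP_8513f1_al

open LinearMap (BilinForm)

variable {F K : Type*} [Field F] [Field K] [Algebra F K]

def gM (K : Type*) [Field K] : K →* W K := ⟨⟨g, g_one⟩, g_mul⟩

def res (F K : Type*) [Field F] [Field K] [Algebra F K] : W F →+* W K :=
  Ideal.Quotient.lift _ (FreeAbelianGroup.liftMonoid ((gM K).comp (algebraMap F K).toMonoidHom))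
    (fun x hx => lift_kills (fun a => g (algebraMap F K a)) (by simp)
      (fun a t ht => by rw [map_mul, map_pow, g_mul_sq _ (by simpa using ht)]) (fun a => by simp)
      (fun a b => by simpa using g_add (algebraMap F K a) (algebraMap F K b)) x hx)

@[simp] theorem res_g (a : F) : res F K (g a) = g (algebraMap F K a) :=
  FreeAbelianGroup.lift_apply_of (fun a => g (algebraMap F K a)) a

@[simp] theorem res_pf (a : F) : res F K (pf a) = pf (algebraMap F K a) := by simp [pf]

theorem res_cl (l : List F) : res F K (cl l) = cl (l.map (algebraMap F K)) := by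
  induction l with
  | nil => simp
  | cons a l ih => simp [ih]

theorem res_pp (l : List F) : res F K (pp l) = pp (l.map (algebraMap F K)) := by
  induction l with
  | nil => simp
  | cons a l ih => simp [ih]

theorem NZ.alg {l : List F} (h : NZ l) : NZ (l.map (algebraMap F K)) := by
  intro a ha
  obtain ⟨b, hb, rfl⟩ := List.mem_map.1 ha
  simpa using h b hb

theorem dm_res (w : W F) : dm (res F K w) ≤ dm w := by
  obtain ⟨l, rfl, h⟩ := exists_dm w
  rw [← h, res_cl]
  simpa using dm_le (l.map (algebraMap F K))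

theorem map_II : (II F).map (res F K) ≤ II K := by
  rw [II, Ideal.map_span, Ideal.span_le]
  rintro _ ⟨_, ⟨a, ha, rfl⟩, rfl⟩
  rw [res_pf]
  exact pf_mem (by simpa using ha)

theorem res_mem {k : ℕ} {w : W F} (h : w ∈ II F ^ k) : res F K w ∈ II K ^ k :=
  Ideal.pow_right_mono map_II k (by rw [← Ideal.map_pow]; exact Ideal.mem_map_of_mem _ h)

theorem res_res {L : Type*} [Field L] [Algebra K L] [Algebra F L] [IsScalarTower F K L]
    (w : W F) : res K L (res F K w) = res F L w := by
  obtain ⟨l, rfl⟩ := cl_surj w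
  simp only [res_cl, List.map_map]
  congr 2
  ext a
  exact (IsScalarTower.algebraMap_apply F K L a).symm

theorem neZero_two (F K : Type*) [Field F] [Field K] [Algebra F K] [NeZero (2 : F)] :
    NeZero (2 : K) :=
  ⟨by rw [← map_ofNat (algebraMap F K) 2]; simpa using NeZero.ne (2 : F)⟩

theorem isot_alg {l : List F} : Isot (l.map (algebraMap F K)) ↔
    ∃ v : Fin l.length → K, v ≠ 0 ∧ ∑ i, algebraMap F K (l.get i) * v i * v i = 0 := by
  have h : (l.map (algebraMap F K)).length = l.length := List.length_map _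
  have key : ∀ v : Fin (l.map (algebraMap F K)).length → K, bf _ v v =
      ∑ i : Fin l.length, algebraMap F K (l.get i) * v (i.cast h.symm) * v (i.cast h.symm) := by
    intro v
    rw [bf_apply]
    exact (Fintype.sum_equiv (finCongr h.symm) _ _ (fun i => by simp)).symm
  constructor
  · rintro ⟨v, hv, h0⟩
    refine ⟨fun i => v (i.cast h.symm), fun hz => hv ?_, by rw [← key, h0]⟩
    ext i
    simpa using congrFun hz (i.cast h)
  · rintro ⟨v, hv, h0⟩
    refine ⟨fun i => v (i.cast h), fun hz => hv ?_, by rw [key]; simpa using h0⟩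
    ext i
    simpa using congrFun hz (i.cast h.symm)

structure Quad (F K : Type*) [Field F] [Field K] [Algebra F K] where
  x : F
  r : K
  hns : ¬ IsSquare x
  hr : r * r = algebraMap F K x
  span : ∀ z : K, ∃ p : F × F, z = algebraMap F K p.1 + algebraMap F K p.2 * r

namespace Quad
variable (q : Quad F K)

theorem x_ne : q.x ≠ 0 := fun h => q.hns (h ▸ IsSquare.zero)

theorem indep {u v : F} (h : algebraMap F K u + algebraMap F K v * q.r = 0) : u = 0 ∧ v = 0 := by
  have hv : v = 0 := by
    by_contra hv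
    apply q.hns
    refine ⟨u / v, (algebraMap F K).injective ?_⟩
    have hv' : algebraMap F K v ≠ 0 := by simpa using hv
    rw [← q.hr, map_mul, map_div₀]
    field_simp
    linear_combination (algebraMap F K v * q.r - algebraMap F K u) * h
  subst hv
  simpa using h

noncomputable def co (z : K) : F × F := Classical.choose (q.span z)

theorem co_spec (z : K) : z = algebraMap F K (q.co z).1 + algebraMap F K (q.co z).2 * q.r :=
  Classical.choose_spec (q.span z)

theorem co_mk (u v : F) : q.co (algebraMap F K u + algebraMap F K v * q.r) = (u, v) := by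
  have := q.co_spec (algebraMap F K u + algebraMap F K v * q.r)
  set p := q.co (algebraMap F K u + algebraMap F K v * q.r)
  have h := q.indep (u := p.1 - u) (v := p.2 - v) (by
    simp only [map_sub]; linear_combination -this)
  exact Prod.ext (sub_eq_zero.1 h.1) (sub_eq_zero.1 h.2)

noncomputable def coE : K ≃ₗ[F] F × F where
  toFun := q.co
  invFun p := algebraMap F K p.1 + algebraMap F K p.2 * q.r
  map_add' a b := by
    conv_lhs => rw [q.co_spec a, q.co_spec b]
    rw [← (q.co a + q.co b).eta, ← q.co_mk]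
    congr 1; simp; ring
  map_smul' c a := by
    conv_lhs => rw [q.co_spec a]
    rw [RingHom.id_apply, ← (c • q.co a).eta, ← q.co_mk]
    congr 1; simp [Algebra.smul_def]; ring
  left_inv z := (q.co_spec z).symm
  right_inv p := q.co_mk p.1 p.2

include q in
theorem finrank_eq : Module.finrank F K = 2 := by simpa using q.coE.finrank_eq

include q in
theorem finiteDim : FiniteDimensional F K := q.coE.symm.finiteDimensional

noncomputable def re : K →ₗ[F] F := LinearMap.fst F F F ∘ₗ q.coE.toLinearMap
noncomputable def im : K →ₗ[F] F := LinearMap.snd F F F ∘ₗ q.coE.toLinearMap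

theorem spec (z : K) : z = algebraMap F K (q.re z) + algebraMap F K (q.im z) * q.r := q.co_spec z
theorem re_mk (u v : F) : q.re (algebraMap F K u + algebraMap F K v * q.r) = u :=
  congrArg Prod.fst (q.co_mk u v)
theorem im_mk (u v : F) : q.im (algebraMap F K u + algebraMap F K v * q.r) = v :=
  congrArg Prod.snd (q.co_mk u v)
theorem im_eq {z : K} {u v : F} (h : z = algebraMap F K u + algebraMap F K v * q.r) :
    q.im z = v := by rw [h, im_mk]
theorem re_eq {z : K} {u v : F} (h : z = algebraMap F K u + algebraMap F K v * q.r) :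
    q.re z = u := by rw [h, re_mk]
theorem eq_alg {z : K} (h : q.im z = 0) : z = algebraMap F K (q.re z) := by
  have := q.spec z
  rwa [h, map_zero, zero_mul, add_zero] at this
@[simp] theorem im_alg (u : F) : q.im (algebraMap F K u) = 0 := q.im_eq (u := u) (by simp)
@[simp] theorem im_one : q.im 1 = 0 := by simpa using q.im_alg 1
theorem im_alg_mul (c : F) (z : K) : q.im (algebraMap F K c * z) = c * q.im z := by
  rw [← Algebra.smul_def, map_smul, smul_eq_mul]
theorem re_alg_mul (c : F) (z : K) : q.re (algebraMap F K c * z) = c * q.re z := by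
  rw [← Algebra.smul_def, map_smul, smul_eq_mul]

noncomputable def N (z : K) : F := q.re z ^ 2 - q.x * q.im z ^ 2

noncomputable def bar (z : K) : K := algebraMap F K (q.re z) + algebraMap F K (-q.im z) * q.r

theorem mul_bar (z : K) : z * q.bar z = algebraMap F K (q.N z) := by
  conv_lhs => rw [q.spec z]
  rw [bar, re_mk, im_mk, N]
  simp only [map_sub, map_mul, map_pow, map_neg, ← q.hr]
  ring

theorem N_ne {z : K} (hz : z ≠ 0) : q.N z ≠ 0 := by
  intro h
  have := q.mul_bar z
  rw [h, map_zero, mul_eq_zero] at this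
  rcases this with h | h
  · exact hz h
  · have := q.indep h
    apply hz
    rw [q.spec z, this.1, neg_eq_zero.1 this.2]; simp

theorem N_mul (z w : K) : q.N (z * w) = q.N z * q.N w := by
  have : z * w = algebraMap F K (q.re z * q.re w + q.x * q.im z * q.im w) +
      algebraMap F K (q.re z * q.im w + q.im z * q.re w) * q.r := by
    conv_lhs => rw [q.spec z, q.spec w]
    simp only [map_add, map_mul, ← q.hr]
    ring
  simp only [N]
  rw [q.re_eq this, q.im_eq this]
  ring

theorem nm_N {z : K} (hz : z ≠ 0) : Nm q.x (q.N z) := ⟨q.N_ne hz, _, _, rfl⟩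

theorem exists_N {m : F} (h : Nm q.x m) : ∃ z : K, z ≠ 0 ∧ q.N z = m := by
  obtain ⟨h0, s, t, rfl⟩ := h
  refine ⟨algebraMap F K s + algebraMap F K t * q.r, fun hz => h0 ?_, by rw [N, re_mk, im_mk]⟩
  obtain ⟨rfl, rfl⟩ := q.indep hz
  simp

theorem pf_x : pf (algebraMap F K q.x) = 0 :=
  pf_of_isSquare (by simpa using q.x_ne) ⟨q.r, q.hr.symm⟩

variable [NeZero (2 : F)]

theorem split {l : List F} (hl : ¬ Isot l) (h : Isot (l.map (algebraMap F K))) :
    ∃ c l', c ≠ 0 ∧ cl l = g c * pf q.x + cl l' ∧ l.length = l'.length + 2 := by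
  have h2 : (2 : F) ≠ 0 := NeZero.ne 2
  obtain ⟨v, hv, h0⟩ := isot_alg.1 h
  let u : Fin l.length → F := fun i => q.re (v i)
  let w : Fin l.length → F := fun i => q.im (v i)
  have key := q.indep (u := bf l u u + q.x * bf l w w) (v := 2 * bf l u w) (by
    rw [← h0]
    simp only [bf_apply, map_add, map_mul, map_sum, Finset.mul_sum, Finset.sum_mul, map_ofNat,
      ← Finset.sum_add_distrib, ← q.hr]
    refine Finset.sum_congr rfl fun i _ => ?_
    conv_rhs => rw [q.spec (v i)]
    ring)
  have hw : bf l w w ≠ 0 := by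
    intro hw
    have w0 : w = 0 := by by_contra hne; exact hl ⟨w, hne, hw⟩
    have u0 : u = 0 := by by_contra hne; exact hl ⟨u, hne, by simpa [hw] using key.1⟩
    apply hv
    ext i
    rw [q.spec (v i), show q.re (v i) = 0 from congrFun u0 i,
      show q.im (v i) = 0 from congrFun w0 i]
    simp
  have hu : bf l u u = -(bf l w w * q.x) := by linear_combination key.1
  obtain ⟨l', h1, h3⟩ := orth_split (NZ.of_not_isot hl) u w
    (by rw [hu]; simp [hw, q.x_ne]) hw (by simpa [h2] using key.2)
  refine ⟨_, l', hw, ?_, h3⟩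
  rw [h1, hu, g_neg, g_mul, pf]; ring

theorem excellent (l : List F) : ∃ m cs, cl l = cl m + pf q.x * cl cs ∧
    ¬ Isot (m.map (algebraMap F K)) ∧ NZ cs ∧ m.length + 2 * cs.length ≤ l.length := by
  induction hn : l.length using Nat.strong_induction_on generalizing l with
  | _ n ih =>
    by_cases h : Isot (l.map (algebraMap F K))
    · by_cases hl : Isot l
      · obtain ⟨l', h1, h2⟩ := hl.shorter
        obtain ⟨m, cs, k1, k2, k3, k4⟩ := ih _ (by omega) l' rfl
        exact ⟨m, cs, h1 ▸ k1, k2, k3, by omega⟩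
      · obtain ⟨c, l', hc, h1, h2⟩ := q.split hl h
        obtain ⟨m, cs, k1, k2, k3, k4⟩ := ih _ (by omega) l' rfl
        exact ⟨m, c :: cs, by rw [h1, k1, cl_cons]; ring, k2, by simp [hc, k3], by simp; omega⟩
    · exact ⟨l, [], by simp, h, by simp, by simp; omega⟩

theorem excellent' (w : W F) : ∃ θ ξ, w = θ + pf q.x * ξ ∧ dm θ ≤ dm (res F K w) := by
  have := neZero_two F K
  obtain ⟨l, rfl⟩ := cl_surj w
  obtain ⟨m, cs, k1, k2, -, -⟩ := q.excellent l
  refine ⟨_, _, k1, ?_⟩
  rw [k1, map_add, map_mul, res_pf, q.pf_x, zero_mul, add_zero, res_cl, dm_eq k2]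
  simpa using dm_le m

theorem ker {w : W F} (h : res F K w = 0) :
    ∃ cs, NZ cs ∧ w = pf q.x * cl cs ∧ 2 * cs.length ≤ dm w := by
  have := neZero_two F K
  obtain ⟨l, rfl, hl⟩ := exists_dm w
  obtain ⟨m, cs, k1, k2, k3, k4⟩ := q.excellent l
  rw [k1, map_add, map_mul, res_pf, q.pf_x, zero_mul, add_zero, res_cl] at h
  have := dm_eq k2
  rw [h, dm_zero, List.length_map] at this
  obtain rfl := List.length_eq_zero_iff.1 this.symm
  exact ⟨cs, k3, by simpa using k1, by omega⟩

/-! ### transfer -/

section Tr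
variable {M M' : Type*} [AddCommGroup M] [Module K M] [Module F M] [IsScalarTower F K M]
  [AddCommGroup M'] [Module K M'] [Module F M'] [IsScalarTower F K M']

noncomputable def tr (B : BilinForm K M) : BilinForm F M :=
  LinearMap.mk₂ F (fun x y => q.im (B x y)) (by intro a b c; simp)
    (by intro c a b; rw [← algebraMap_smul K c a]; simp)
    (by intro a b c; simp)
    (by intro c a b; rw [← algebraMap_smul K c b]; simp)

@[simp] theorem tr_apply (B : BilinForm K M) (x y : M) : q.tr B x y = q.im (B x y) := rfl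

theorem tr_iso {B : BilinForm K M} {B' : BilinForm K M'} (h : BIso B B') :
    BIso (q.tr B) (q.tr B') := by
  obtain ⟨e, he⟩ := h
  exact ⟨e.restrictScalars F, fun x y => by simp [he]⟩

theorem tr_prod (B : BilinForm K M) (B' : BilinForm K M') :
    q.tr (bprod B B') = bprod (q.tr B) (q.tr B') := by
  ext <;> simp

end Tr

noncomputable def sg (z : K) : W F := g (q.im z) * pf (q.N z)

theorem tr_one {z : K} (hz : z ≠ 0) :
    ∃ l : List F, NZ l ∧ BIso (bf l) (q.tr (b1 z)) ∧ cl l = q.sg z := by
  have h2 : (2 : F) ≠ 0 := NeZero.ne 2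
  have := q.finiteDim
  have hs : ∀ a b, q.tr (b1 z) a b = q.tr (b1 z) b a := fun a b => by
    simp only [tr_apply, b1_apply]; congr 1; ring
  by_cases hv : q.im z = 0
  · have hz' := q.eq_alg hv
    have hu : q.re z ≠ 0 := fun h => hz (by rw [hz', h, map_zero])
    have e1 : q.tr (b1 z) (1 + q.r) (1 + q.r) = 2 * q.re z := by
      refine q.im_eq (u := q.re z * (1 + q.x)) ?_
      conv_lhs => rw [hz']
      rw [b1_apply]; simp only [map_mul, map_add, map_one, map_ofNat, ← q.hr]; ring
    have e2 : q.tr (b1 z) (1 - q.r) (1 - q.r) = -(2 * q.re z) := by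
      refine q.im_eq (u := q.re z * (1 + q.x)) ?_
      conv_lhs => rw [hz']
      simp only [b1_apply, map_mul, map_add, map_one, map_ofNat, map_neg, ← q.hr]; ring
    have e3 : q.tr (b1 z) (1 + q.r) (1 - q.r) = 0 := by
      refine q.im_eq (u := q.re z * (1 - q.x)) ?_
      conv_lhs => rw [hz']
      simp only [b1_apply, map_mul, map_sub, map_one, map_zero, ← q.hr]; ring
    have := BIso.two _ hs q.finrank_eq _ _ (by rw [e1]; simp [h2, hu]) (by rw [e2]; simp [h2, hu])
      e3
    rw [e1, e2] at this
    exact ⟨_, by simp [h2, hu], this, by simp [sg, hv]⟩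
  · have e1 : q.tr (b1 z) 1 1 = q.im z := by simp
    have e2 : q.tr (b1 z) (q.bar z) (q.bar z) = -(q.im z * q.N z) := by
      rw [tr_apply, b1_apply, mul_bar, im_alg_mul, bar, im_mk]; ring
    have e3 : q.tr (b1 z) 1 (q.bar z) = 0 := by
      rw [tr_apply, b1_apply, mul_one, mul_bar, im_alg]
    have := BIso.two _ hs q.finrank_eq _ _ (by rwa [e1]) (by rw [e2]; simp [hv, q.N_ne hz]) e3
    rw [e1, e2] at this
    exact ⟨_, by simp [hv, q.N_ne hz], this, by simp [sg, pf, g_mul]; ring⟩

theorem exists_transfer : ∃ s : W K →+ W F, ∀ z, s (g z) = q.sg z := by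
  have h2 : ∀ a : K, q.sg a + q.sg (-a) = 0 := by intro a; simp [sg, N]
  refine exists_lift q.sg (by simp [sg]) ?_ h2 ?_
  · intro a t ht
    by_cases ha : a = 0
    · simp [ha]
    obtain ⟨l, h1, h3, h4⟩ := q.tr_one ha
    obtain ⟨l', h1', h3', h4'⟩ := q.tr_one (z := a * t ^ 2) (by simp [ha, ht])
    have : BIso (b1 (a * t ^ 2)) (b1 a) :=
      ⟨LinearEquiv.smulOfNeZero K K t ht, fun x y => by simp; ring⟩
    rw [← h4, ← h4']
    exact Iso.cl_eq ((h3'.trans (q.tr_iso this)).trans h3.symm) h1'
  · intro a b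
    by_cases ha : a = 0
    · simp [ha, sg]
    by_cases hb : b = 0
    · simp [hb, sg]
    by_cases hab : a + b = 0
    · rw [hab, eq_neg_of_add_eq_zero_right hab, h2]; simp [sg]
    obtain ⟨l1, a1, b1', c1⟩ := q.tr_one ha
    obtain ⟨l2, a2, b2, c2⟩ := q.tr_one hb
    obtain ⟨l3, a3, b3, c3⟩ := q.tr_one hab
    obtain ⟨l4, a4, b4, c4⟩ := q.tr_one (z := a * b * (a + b)) (by simp [ha, hb, hab])
    have k : ∀ c d : K, BIso (bprod (b1 c) (b1 d)) (bf [c, d]) := fun c d =>
      ⟨(LinearEquiv.finTwoArrow K K).symm, fun x y => by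
        erw [bf_apply, Fin.sum_univ_two]; simp⟩
    have := iso_two (s := 1) (t := 1) ha hb (by simpa using hab)
    simp only [one_pow, mul_one] at this
    have i1 := q.tr_iso (((k _ _).trans this).trans (k _ _).symm)
    rw [tr_prod, tr_prod] at i1
    rw [← c1, ← c2, ← c3, ← c4, ← cl_append, ← cl_append]
    exact Iso.cl_eq (((((bf_append _ _).symm.trans (b1'.prod b2)).trans i1.symm).trans
      (b3.prod b4).symm).trans (bf_append _ _)) (by simp [a1, a2])

noncomputable def s : W K →+ W F := Classical.choose q.exists_transfer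

theorem s_g (z : K) : q.s (g z) = g (q.im z) * pf (q.N z) :=
  Classical.choose_spec q.exists_transfer z

theorem s_res_mul (a : W F) (φ : W K) : q.s (res F K a * φ) = a * q.s φ := by
  induction a using W.induction with
  | h0 => simp
  | hadd x y hx hy => simp [add_mul, hx, hy]
  | hg c =>
    induction φ using W.induction with
    | h0 => simp
    | hadd x y hx hy => simp only [mul_add, map_add, hx, hy]
    | hg z =>
      by_cases hc : c = 0
      · simp [hc]
      rw [res_g, ← g_mul, s_g, s_g, im_alg_mul, g_mul, mul_assoc, ← pf_mul_sq (q.N z) hc]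
      congr 3
      simp only [N, im_alg_mul, re_alg_mul]; ring

theorem s_one : q.s 1 = 0 := by rw [← g_one, s_g]; simp

theorem s_res (a : W F) : q.s (res F K a) = 0 := by
  simpa [s_one] using q.s_res_mul a 1

noncomputable def sl : List K → List F
  | [] => []
  | z :: l => [q.im z, -(q.im z * q.N z)] ++ sl l

theorem cl_sl (l : List K) : cl (q.sl l) = q.s (cl l) := by
  induction l with
  | nil => simp [sl]
  | cons z l ih => simp [sl, ih, s_g, pf, g_mul]; ring

theorem length_sl (l : List K) : (q.sl l).length = 2 * l.length := by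
  induction l with
  | nil => simp [sl]
  | cons z l ih => simp [sl, ih]; ring

theorem im_sq (z : K) (s t : F) :
    q.im (z * (algebraMap F K s + algebraMap F K t * q.bar z) ^ 2) =
      q.im z * s ^ 2 + -(q.im z * q.N z) * t ^ 2 := by
  have : z * (algebraMap F K s + algebraMap F K t * q.bar z) ^ 2 =
      algebraMap F K (s ^ 2) * z + algebraMap F K (2 * s * t * q.N z) +
        algebraMap F K (t ^ 2 * q.N z) * q.bar z := by
    simp only [map_mul, map_pow, map_ofNat, ← mul_bar]; ring
  rw [this, map_add, map_add, im_alg_mul, im_alg_mul, im_alg, bar, im_mk]; ring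

theorem rep_sl {l : List K} {c : F} (h : Rep (q.sl l) c) : ∃ γ, Rep l γ ∧ q.im γ = c := by
  induction l generalizing c with
  | nil => exact ⟨0, rep_zero _, by simpa [sl, eq_comm] using h⟩
  | cons z l ih =>
    obtain ⟨_, b, h1, h2, rfl⟩ := rep_append.1 h
    obtain ⟨s, t, rfl⟩ := rep_two.1 h1
    obtain ⟨γ, h3, rfl⟩ := ih h2
    exact ⟨_, rep_cons.2 ⟨_, γ, h3, rfl⟩, by rw [map_add, im_sq]⟩

theorem isot_sl {l : List K} (hl : NZ l) (h : Isot (q.sl l)) :
    Isot l ∨ ∃ f : F, f ≠ 0 ∧ Rep l (algebraMap F K f) := by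
  induction l with
  | nil => simp [sl] at h
  | cons z l ih =>
    rw [nz_cons] at hl
    have fin : ∀ γ, γ ≠ 0 → q.im γ = 0 → Rep (z :: l) γ →
        ∃ f : F, f ≠ 0 ∧ Rep (z :: l) (algebraMap F K f) := fun γ h0 h1 h2 =>
      ⟨q.re γ, fun h => h0 (by rw [q.eq_alg h1, h, map_zero]), q.eq_alg h1 ▸ h2⟩
    rcases isot_append.1 h with h | h | ⟨c, hc, h1, h2⟩
    · right
      by_cases hv : q.im z = 0
      · exact fin z hl.1 hv (rep_cons.2 ⟨1, 0, rep_zero _, by ring⟩)
      rcases isot_cons.1 h with h | h
      · obtain ⟨t, ht⟩ := rep_single.1 h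
        have ht0 : t ≠ 0 := by rintro rfl; simp [hv] at ht
        refine fin (z * (algebraMap F K 1 + algebraMap F K t * q.bar z) ^ 2) ?_ ?_
          (rep_cons.2 ⟨_, 0, rep_zero _, by rw [add_zero]⟩)
        · refine mul_ne_zero hl.1 (pow_ne_zero _ fun h0 => ?_)
          have := congrArg q.im h0
          rw [map_add, im_alg, im_alg_mul, bar, im_mk] at this
          simp [ht0, hv] at this
        · rw [im_sq]; linear_combination -ht
      · simp [isot_single, hv, q.N_ne hl.1] at h
    · rcases ih hl.2 h with h | ⟨f, hf, h⟩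
      · exact Or.inl (isot_cons.2 (Or.inr h))
      · exact Or.inr ⟨f, hf, rep_cons.2 ⟨0, _, h, by ring⟩⟩
    · obtain ⟨s, t, rfl⟩ := rep_two.1 h1
      obtain ⟨γ, h3, h4⟩ := q.rep_sl h2
      rw [← im_sq] at h4 hc
      set y := algebraMap F K s + algebraMap F K t * q.bar z
      by_cases h0 : z * y ^ 2 + γ = 0
      · left
        refine isot_append (l := [z]).2 (Or.inr (Or.inr ⟨z * y ^ 2, fun h => hc (by simp [h]),
          rep_single.2 ⟨y, rfl⟩, ?_⟩))
        rwa [← eq_neg_of_add_eq_zero_right h0]
      · exact Or.inr (fin _ h0 (by rw [map_add, h4]; ring) (rep_cons.2 ⟨y, γ, h3, rfl⟩))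

theorem exists_close (φ : W K) : ∃ a, 2 * dm (φ - res F K a) ≤ dm (q.s φ) := by
  classical
  have := neZero_two F K
  have hex : ∃ n, ∃ a, dm (φ - res F K a) = n := ⟨_, 0, rfl⟩
  obtain ⟨a, ha⟩ := Nat.find_spec hex
  have hmin : ∀ b, Nat.find hex ≤ dm (φ - res F K b) := fun b => Nat.find_min' hex ⟨b, rfl⟩
  refine ⟨a, ?_⟩
  obtain ⟨l, h1, h2, h3⟩ := exists_an (φ - res F K a)
  have hs : q.s φ = cl (q.sl l) := by rw [cl_sl, h1, map_sub, s_res, sub_zero]
  have : ¬ Isot (q.sl l) := by
    intro h
    rcases q.isot_sl (NZ.of_not_isot h3) h with h | ⟨f, hf, h⟩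
    · exact h3 h
    · obtain ⟨l', k1, k2, -⟩ := rep_split' (NZ.of_not_isot h3) h (by simpa using hf)
      have := hmin (a + g f)
      rw [show φ - res F K (a + g f) = cl l' by
        rw [map_add, res_g]; linear_combination k1 - h1] at this
      have := dm_le l'
      omega
  rw [hs, dm_eq this, length_sl, h2]

theorem norm_kill {as : List F} (has : NZ as)
    (hZ : ∀ f : F, f ≠ 0 → pf (algebraMap F K f) * res F K (pp as) = 0) {z : K} (hz : z ≠ 0)
    (h : pf (q.N z) * pp as = 0) : pf z * res F K (pp as) = 0 := by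
  have := neZero_two F K
  have has' : NZ (as.map (algebraMap F K)) := has.alg
  have : Isot (q.sl ((PL (as.map (algebraMap F K))).map (z * ·))) := by
    rw [isot_iff, cl_sl, cl_map_mul, cl_P, ← res_pp, mul_comm, s_res_mul, s_g,
      show pp as * (g (q.im z) * pf (q.N z)) = g (q.im z) * (pf (q.N z) * pp as) by ring, h,
      length_sl]
    simp [length_P]
  rcases q.isot_sl ((nz_P has').map hz) this with h | ⟨f, hf, h⟩
  · rw [res_pp, pp_eq_zero has' (isot_map hz h), mul_zero]
  · obtain ⟨γ, h1, h2⟩ := rep_map.1 h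
    have hγ : γ ≠ 0 := by rintro rfl; simp [hf] at h2
    have e1 := round has' hγ h1
    have e2 := hZ f hf
    rw [h2, pf_mul] at e2
    rw [← res_pp] at e1
    linear_combination e2 - g z * e1

include q in
theorem pf2_mem_mul {z w : K} (hz : z ≠ 0) (hw : w ≠ 0) :
    pf z * pf w ∈ II K * (II F).map (res F K) := by
  have := neZero_two F K
  have m : ∀ (a : K) (y : F), a ≠ 0 → y ≠ 0 →
      pf a * pf (algebraMap F K y) ∈ II K * (II F).map (res F K) := fun a y ha hy =>
    Ideal.mul_mem_mul (pf_mem ha) (res_pf (K := K) y ▸ Ideal.mem_map_of_mem _ (pf_mem hy))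
  have re0 : ∀ a : K, a ≠ 0 → q.im a = 0 → q.re a ≠ 0 := fun a ha h h' =>
    ha (by rw [q.eq_alg h, h', map_zero])
  by_cases h1 : q.im w = 0
  · rw [q.eq_alg h1]; exact m _ _ hz (re0 w hw h1)
  by_cases h2 : q.im z = 0
  · rw [q.eq_alg h2, mul_comm (pf _)]; exact m _ _ hw (re0 z hz h2)
  have h2' : algebraMap F K (q.im z) ≠ 0 := by simpa using h2
  by_cases hD : q.re z * q.im w - q.im z * q.re w = 0
  · have : w = algebraMap F K (-(q.im w / q.im z)) * -z := by
      have hD' := congrArg (algebraMap F K) hD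
      simp only [map_sub, map_mul, map_zero] at hD'
      rw [map_neg, map_div₀]
      field_simp
      linear_combination algebraMap F K (q.im z) * q.spec w - algebraMap F K (q.im w) * q.spec z
        - hD'
    rw [this, pf_mul, mul_add, mul_left_comm, pf_mul_neg hz, mul_zero, add_zero]
    exact m _ _ hz (by simp [h1, h2])
  · set D := q.re z * q.im w - q.im z * q.re w with hDd
    have hy1 : q.im w / D ≠ 0 := div_ne_zero h1 hD
    have hy2 : -q.im z / D ≠ 0 := div_ne_zero (neg_ne_zero.2 h2) hD
    set y1 := q.im w / D with hy1d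
    set y2 := -q.im z / D with hy2d
    have k1 : algebraMap F K y1 ≠ 0 := by simpa using hy1
    have k2 : algebraMap F K y2 ≠ 0 := by simpa using hy2
    have hA := mul_ne_zero k1 hz
    have hB := mul_ne_zero k2 hw
    have hsum : algebraMap F K y2 * w = 1 ^ 2 - algebraMap F K y1 * z * 1 ^ 2 := by
      have hD' : algebraMap F K D ≠ 0 := by simpa using hD
      have hD2 := congrArg (algebraMap F K) hDd
      simp only [map_sub, map_mul] at hD2
      rw [hy1d, hy2d, map_div₀, map_div₀, map_neg]
      field_simp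
      linear_combination -algebraMap F K (q.im z) * q.spec w + algebraMap F K (q.im w) * q.spec z
        - hD2
    have st := Nm.pf_mul (n := algebraMap F K y1 * z) ⟨hB, 1, 1, hsum⟩ hA
    have := Ideal.mul_mem_left _ (g (algebraMap F K y1) * g (algebraMap F K y2))
      (sub_mem (sub_mem (m _ _ k1 hy2) (m _ _ hA hy2)) (m _ _ hB hy1))
    convert this using 1
    have s1 := g_sq k1
    have s2 := g_sq k2
    rw [pf_mul, pf_mul] at st ⊢
    set G1 := g (algebraMap F K y1)
    set G2 := g (algebraMap F K y2)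
    linear_combination G1 * G2 * st - pf z * pf w * (G2 * G2) * s1 - pf z * pf w * s2

include q in
theorem pow_le (j : ℕ) : II K ^ (j + 1) ≤ II K * (II F ^ j).map (res F K) := by
  induction j with
  | zero => simp [Ideal.map_top, Ideal.one_eq_top]
  | succ j ih =>
    have h2 : II K * II K ≤ II K * (II F).map (res F K) := by
      intro w hw
      rw [← pow_two] at hw
      exact ind2 (Q := fun w => w ∈ II K * (II F).map (res F K)) (zero_mem _)
        (fun _ _ => add_mem) (fun e a b _ ha hb => Ideal.mul_mem_left _ _ (q.pf2_mem_mul ha hb)) hw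
    calc II K ^ (j + 1 + 1) = II K * II K ^ (j + 1) := pow_succ' _ _
      _ ≤ II K * (II K * (II F ^ j).map (res F K)) := Ideal.mul_mono_right ih
      _ = (II K * II K) * (II F ^ j).map (res F K) := (mul_assoc _ _ _).symm
      _ ≤ (II K * (II F).map (res F K)) * (II F ^ j).map (res F K) := Ideal.mul_mono_left h2
      _ = II K * (II F ^ (j + 1)).map (res F K) := by
        rw [mul_assoc, ← Ideal.map_mul, ← pow_succ']

end Quad

end Pool.Agent.P.MP_8513f1_al
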