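import Pool.Agent.P.MP_8513f1_al.Geom

/-! The Witt ring by generators and relations; anisotropic forms have minimal dimension. -/

set_option autoImplicit false

namespace Pool.Agent.P.MP_8513f1_al

open FreeAbelianGroup (of)

variable {F : Type*} [Field F]

def rels (F : Type*) [Field F] : Set (FreeAbelianGroup F) :=
  {x | x = of 0 ∨ (∃ a t : F, t ≠ 0 ∧ x = of (a * t ^ 2) - of a) ∨ (∃ a : F, x = of a + of (-a)) ∨
    ∃ a b : F, x = of a + of b - of (a + b) - of (a * b * (a + b))}

def W (F : Type*) [Field F] := FreeAbelianGroup F ⧸ Ideal.span (rels F)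

instance : CommRing (W F) := inferInstanceAs (CommRing (FreeAbelianGroup F ⧸ Ideal.span (rels F)))

def wmk : FreeAbelianGroup F →+* W F := Ideal.Quotient.mk _

def g (a : F) : W F := wmk (of a)

theorem wmk_rel {x : FreeAbelianGroup F} (h : x ∈ rels F) : wmk x = 0 :=
  Ideal.Quotient.eq_zero_iff_mem.2 (Ideal.subset_span h)

@[simp] theorem g_zero : g (0 : F) = 0 := wmk_rel (Or.inl rfl)
@[simp] theorem g_one : g (1 : F) = 1 := by rw [g, FreeAbelianGroup.of_one, map_one]
theorem g_mul (a b : F) : g (a * b) = g a * g b := by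
  simp only [g, FreeAbelianGroup.of_mul, map_mul]
theorem g_mul_sq (a : F) {t : F} (ht : t ≠ 0) : g (a * t ^ 2) = g a := by
  have := wmk_rel (F := F) (Or.inr (Or.inl ⟨a, t, ht, rfl⟩))
  rw [map_sub] at this
  exact sub_eq_zero.1 this
@[simp] theorem g_neg (a : F) : g (-a) = -g a := by
  have := wmk_rel (F := F) (Or.inr (Or.inr (Or.inl ⟨a, rfl⟩)))
  rw [map_add] at this
  exact eq_neg_of_add_eq_zero_right this
theorem g_add (a b : F) : g a + g b = g (a + b) + g (a * b * (a + b)) := by
  have := wmk_rel (F := F) (Or.inr (Or.inr (Or.inr ⟨a, b, rfl⟩)))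
  rw [map_sub, map_sub, map_add] at this
  exact sub_eq_iff_eq_add'.1 (sub_eq_zero.1 this)
theorem g_sq {t : F} (ht : t ≠ 0) : g t * g t = 1 := by
  rw [← g_mul, ← g_one, ← g_mul_sq 1 ht]; congr 1; ring
theorem g_inv (a : F) : g a⁻¹ = g a := by
  by_cases ha : a = 0
  · simp [ha]
  · rw [← g_mul_sq a⁻¹ ha]; congr 1; field_simp

theorem W.induction {P : W F → Prop} (w : W F) (h0 : P 0) (hg : ∀ a, P (g a))
    (hadd : ∀ x y, P x → P y → P (x + y)) : P w := by
  obtain ⟨x, rfl⟩ : ∃ x, wmk x = w := Ideal.Quotient.mk_surjective w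
  induction x using FreeAbelianGroup.induction_on with
  | zero => simpa using h0
  | of a => exact hg a
  | neg a _ => rw [map_neg]; have := hg (-a); rwa [g_neg] at this
  | add x y hx hy => rw [map_add]; exact hadd _ _ hx hy

section Lift
variable {A : Type*} [AddCommGroup A] (f : F → A) (h0 : f 0 = 0)
  (h1 : ∀ a t, t ≠ 0 → f (a * t ^ 2) = f a) (h2 : ∀ a, f a + f (-a) = 0)
  (h3 : ∀ a b, f a + f b = f (a + b) + f (a * b * (a + b)))

include h0 h1 h2 h3 in
theorem lift_kills (x : FreeAbelianGroup F) (hx : x ∈ Ideal.span (rels F)) :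
    FreeAbelianGroup.lift f x = 0 := by
  have key : ∀ x ∈ Ideal.span (rels F), ∀ c : F, FreeAbelianGroup.lift f (of c * x) = 0 := by
    intro x hx
    induction hx using Submodule.span_induction with
    | mem x hx =>
      intro c
      rcases hx with rfl | ⟨a, t, ht, rfl⟩ | ⟨a, rfl⟩ | ⟨a, b, rfl⟩
      · simp [FreeAbelianGroup.of_mul_of, h0]
      · simp only [mul_sub, FreeAbelianGroup.of_mul_of, map_sub, FreeAbelianGroup.lift_apply_of]
        rw [← mul_assoc, h1 _ _ ht, sub_self]
      · simp only [mul_add, FreeAbelianGroup.of_mul_of, map_add, FreeAbelianGroup.lift_apply_of]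
        rw [mul_neg, h2]
      · simp only [mul_sub, mul_add (of c), FreeAbelianGroup.of_mul_of, map_sub, map_add,
          FreeAbelianGroup.lift_apply_of]
        rw [h3]
        by_cases hc : c = 0
        · simp [hc]
        · rw [show c * a * (c * b) * (c * a + c * b) = c * (a * b * (a + b)) * c ^ 2 by ring,
            h1 _ _ hc, mul_add c a b]
          abel
    | zero => intro c; simp
    | add x y _ _ hx hy => intro c; rw [mul_add, map_add, hx, hy, add_zero]
    | smul r x _ hx =>
      intro c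
      rw [smul_eq_mul]
      induction r using FreeAbelianGroup.induction_on with
      | zero => simp
      | of a => rw [← mul_assoc, FreeAbelianGroup.of_mul_of, hx]
      | neg a h => rw [neg_mul, mul_neg, map_neg, h, neg_zero]
      | add u v hu hv => rw [add_mul, mul_add, map_add, hu, hv, add_zero]
  have := key x hx 1
  rwa [FreeAbelianGroup.of_one, one_mul] at this

include h0 h1 h2 h3 in
theorem exists_lift : ∃ φ : W F →+ A, ∀ a, φ (g a) = f a :=
  ⟨QuotientAddGroup.lift (Ideal.span (rels F)).toAddSubgroup (FreeAbelianGroup.lift f)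
    (fun x hx => lift_kills f h0 h1 h2 h3 x hx),
    fun a => FreeAbelianGroup.lift_apply_of f a⟩

end Lift

def cl (l : List F) : W F := (l.map g).sum

@[simp] theorem cl_nil : cl ([] : List F) = 0 := rfl
@[simp] theorem cl_cons (a : F) (l : List F) : cl (a :: l) = g a + cl l := by simp [cl]
@[simp] theorem cl_append (l m : List F) : cl (l ++ m) = cl l + cl m := by simp [cl]
theorem cl_map_mul (c : F) (l : List F) : cl (l.map (c * ·)) = g c * cl l := by
  induction l with
  | nil => simp
  | cons a l ih => simp [ih, g_mul, mul_add]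

theorem cl_surj (w : W F) : ∃ l, cl l = w := by
  induction w using W.induction with
  | h0 => exact ⟨[], rfl⟩
  | hg a => exact ⟨[a], by simp⟩
  | hadd x y hx hy =>
    obtain ⟨l, rfl⟩ := hx
    obtain ⟨m, rfl⟩ := hy
    exact ⟨l ++ m, by simp⟩

theorem g_two {a b s t : F} (hc : a * s ^ 2 + b * t ^ 2 ≠ 0) :
    g a + g b = g (a * s ^ 2 + b * t ^ 2) + g (a * b * (a * s ^ 2 + b * t ^ 2)) := by
  by_cases hs : s = 0
  · subst hs
    have ht : t ≠ 0 := by rintro rfl; simp at hc
    have hb : b ≠ 0 := by rintro rfl; simp at hc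
    rw [show a * 0 ^ 2 + b * t ^ 2 = b * t ^ 2 by ring,
      show a * b * (b * t ^ 2) = a * (b * t) ^ 2 by ring, g_mul_sq _ ht,
      g_mul_sq _ (mul_ne_zero hb ht), add_comm]
  by_cases ht : t = 0
  · subst ht
    have ha : a ≠ 0 := by rintro rfl; simp at hc
    rw [show a * s ^ 2 + b * 0 ^ 2 = a * s ^ 2 by ring,
      show a * b * (a * s ^ 2) = b * (a * s) ^ 2 by ring, g_mul_sq _ hs,
      g_mul_sq _ (mul_ne_zero ha hs)]
  rw [← g_mul_sq a hs, ← g_mul_sq b ht, g_add,
    show a * s ^ 2 * (b * t ^ 2) * (a * s ^ 2 + b * t ^ 2) =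
      a * b * (a * s ^ 2 + b * t ^ 2) * (s * t) ^ 2 by ring, g_mul_sq _ (mul_ne_zero hs ht)]

theorem rep_split {l : List F} (hl : NZ l) {c : F} (h : Rep l c) (hc : c ≠ 0) :
    ∃ l', Iso l (c :: l') ∧ cl l = cl (c :: l') := by
  induction l generalizing c with
  | nil => exact absurd (rep_nil.1 h) hc
  | cons a l ih =>
    rw [nz_cons] at hl
    obtain ⟨t, b, hb, rfl⟩ := rep_cons.1 h
    by_cases hb0 : b = 0
    · subst hb0
      have ht : t ≠ 0 := by rintro rfl; simp at hc
      rw [add_zero]
      exact ⟨l, (Iso.append (iso_sq hl.1 ht) (Iso.refl l)).symm, by simp [g_mul_sq _ ht]⟩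
    · obtain ⟨l', h1, h2⟩ := ih hl.2 hb hb0
      have hc' : a * t ^ 2 + b * 1 ^ 2 ≠ 0 := by simpa using hc
      refine ⟨a * b * (a * t ^ 2 + b) :: l', ?_, ?_⟩
      · refine (h1.cons a).trans ?_
        have := (Iso.append (iso_two hl.1 hb0 hc') (Iso.refl l')).symm
        simpa using this
      · have := g_two hc'
        simp only [one_pow, mul_one] at this
        simp only [cl_cons, h2, ← add_assoc, this]

variable [NeZero (2 : F)]

theorem Iso.cl_eq {l m : List F} (h : Iso l m) (hl : NZ l) : cl l = cl m := by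
  induction m generalizing l with
  | nil =>
    have := h.length_eq
    rw [List.length_eq_zero_iff.1 this]
  | cons c m ih =>
    have hc := (nz_cons.1 (h.nz hl)).1
    obtain ⟨l', h1, h2⟩ := rep_split hl (h.symm.rep (rep_cons.2 ⟨1, 0, rep_zero _, by ring⟩)) hc
    rw [h2, cl_cons, cl_cons, ih (Iso.cancel hc (h1.symm.trans h)) (nz_cons.1 (h1.nz hl)).2]

theorem iso_hyp {a : F} (ha : a ≠ 0) : Iso [a, -a] [1, -1] := by
  have h2 : (2 : F) ≠ 0 := NeZero.ne 2
  have h : a * ((a⁻¹ + 1) / 2) ^ 2 + -a * ((a⁻¹ - 1) / 2) ^ 2 = 1 := by field_simp; ring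
  have := iso_two (s := (a⁻¹ + 1) / 2) (t := (a⁻¹ - 1) / 2) ha (neg_ne_zero.2 ha)
    (by rw [h]; exact one_ne_zero)
  rw [h, show a * -a * 1 = -1 * a ^ 2 by ring] at this
  exact this.symm.trans ((iso_sq (neg_ne_zero.2 one_ne_zero) ha).cons 1)

theorem isot_split {l : List F} (hl : NZ l) (h : Isot l) : ∃ l', Iso l (1 :: -1 :: l') := by
  induction l with
  | nil => simp at h
  | cons a l ih =>
    rw [nz_cons] at hl
    rcases isot_cons.1 h with h | h
    · obtain ⟨l', h1, -⟩ := rep_split hl.2 h (neg_ne_zero.2 hl.1)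
      exact ⟨l', (h1.cons a).trans (Iso.append (iso_hyp hl.1) (Iso.refl l'))⟩
    · obtain ⟨l', h1⟩ := ih hl.2 h
      exact ⟨a :: l', (h1.cons a).trans (Iso.append (Iso.comm [a] [1, -1]) (Iso.refl l'))⟩

theorem Isot.univ {l : List F} (h : Isot l) (hl : NZ l) (c : F) : Rep l c := by
  have h2 : (2 : F) ≠ 0 := NeZero.ne 2
  obtain ⟨l', h1⟩ := isot_split hl h
  refine h1.symm.rep (rep_cons.2 ⟨(c + 1) / 2, _, rep_cons.2 ⟨(c - 1) / 2, 0, rep_zero _, rfl⟩, ?_⟩)
  field_simp; ring

/-! ### the geometric Witt group -/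

def IsoM (m m' : Multiset F) : Prop := Iso m.toList m'.toList

omit [NeZero (2 : F)] in
theorem isoM_coe {l l' : List F} : IsoM (l : Multiset F) l' ↔ Iso l l' := by
  have h : ∀ l : List F, Iso (l : Multiset F).toList l := fun l =>
    Iso.of_perm (Multiset.coe_eq_coe.1 (by simp))
  exact ⟨fun k => ((h l).symm.trans k).trans (h l'), fun k => ((h l).trans k).trans (h l').symm⟩

omit [NeZero (2 : F)] in
theorem IsoM.add {a b c d : Multiset F} (h : IsoM a b) (h' : IsoM c d) : IsoM (a + c) (b + d) := by
  induction a using Quotient.inductionOn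
  induction b using Quotient.inductionOn
  induction c using Quotient.inductionOn
  induction d using Quotient.inductionOn
  simp only [Multiset.quot_mk_to_coe, Multiset.coe_add, isoM_coe] at *
  exact h.append h'

def hypM (F : Type*) [Field F] : Multiset F := ([1, -1] : List F)

def wcon (F : Type*) [Field F] : AddCon (Multiset F) where
  r m m' := ∃ a b : ℕ, IsoM (m + a • hypM F) (m' + b • hypM F)
  iseqv :=
    { refl := fun m => ⟨0, 0, Iso.refl _⟩
      symm := fun ⟨a, b, h⟩ => ⟨b, a, Iso.symm h⟩
      trans := fun {x y z} ⟨a, b, h⟩ ⟨c, d, h'⟩ => ⟨a + c, b + d, by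
        have h1 := h.add (Iso.refl (c • hypM F).toList)
        have h2 := h'.add (Iso.refl (b • hypM F).toList)
        rw [show x + a • hypM F + c • hypM F = x + (a + c) • hypM F by rw [add_nsmul]; abel] at h1
        rw [show z + d • hypM F + b • hypM F = z + (b + d) • hypM F by rw [add_nsmul]; abel,
          show y + c • hypM F + b • hypM F = y + b • hypM F + c • hypM F by abel] at h2
        exact Iso.trans h1 h2⟩ }
  add' := fun {w x y z} ⟨a, b, h⟩ ⟨c, d, h'⟩ => ⟨a + c, b + d, by
    have := h.add h'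
    rwa [show w + a • hypM F + (y + c • hypM F) = w + y + (a + c) • hypM F by rw [add_nsmul]; abel,
      show x + b • hypM F + (z + d • hypM F) = x + z + (b + d) • hypM F by
        rw [add_nsmul]; abel] at this⟩

omit [NeZero (2 : F)] in
theorem wcon_of_iso {l m : List F} (h : Iso l m) :
    (wcon F).mk' (l : Multiset F) = (wcon F).mk' (m : Multiset F) :=
  (AddCon.eq _).2 ⟨0, 0, by simpa using isoM_coe.2 h⟩

theorem wcon_hyp {a : F} (ha : a ≠ 0) :
    (wcon F).mk' ({a} : Multiset F) + (wcon F).mk' ({-a} : Multiset F) = 0 := by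
  rw [← map_add, ← map_zero (wcon F).mk']
  refine (AddCon.eq _).2 ⟨0, 1, ?_⟩
  have := isoM_coe.2 (iso_hyp ha)
  rw [zero_nsmul, add_zero, one_nsmul, zero_add]
  exact this

open Classical in
noncomputable def wunit (a : F) : AddUnits (wcon F).Quotient :=
  if ha : a = 0 then 0 else
    ⟨(wcon F).mk' {a}, (wcon F).mk' {-a}, wcon_hyp ha, by rw [add_comm]; exact wcon_hyp ha⟩

theorem wunit_val {a : F} (ha : a ≠ 0) :
    (wunit a : (wcon F).Quotient) = (wcon F).mk' (([a] : List F) : Multiset F) := by
  simp [wunit, ha]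

@[simp] theorem wunit_zero : wunit (0 : F) = 0 := by simp [wunit]

theorem exists_geom : ∃ φ : W F →+ AddUnits (wcon F).Quotient, ∀ l : List F, NZ l →
    (φ (cl l) : (wcon F).Quotient) = (wcon F).mk' (l : Multiset F) := by
  have h2 : ∀ a : F, wunit a + wunit (-a) = 0 := by
    intro a
    by_cases ha : a = 0
    · simp [ha]
    · ext
      rw [AddUnits.val_add, wunit_val ha, wunit_val (neg_ne_zero.2 ha)]
      exact wcon_hyp ha
  obtain ⟨φ, hφ⟩ := exists_lift (wunit (F := F)) wunit_zero (by
      intro a t ht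
      by_cases ha : a = 0
      · simp [ha]
      · ext
        rw [wunit_val ha, wunit_val (by simp [ha, ht])]
        exact wcon_of_iso (iso_sq ha ht)) h2 (by
      intro a b
      by_cases ha : a = 0
      · simp [ha]
      by_cases hb : b = 0
      · simp [hb]
      by_cases hab : a + b = 0
      · rw [hab, eq_neg_of_add_eq_zero_right hab, h2]; simp
      ext
      rw [AddUnits.val_add, AddUnits.val_add, wunit_val ha, wunit_val hb, wunit_val hab,
        wunit_val (by simp [ha, hb, hab]), ← map_add, ← map_add, Multiset.coe_add,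
        Multiset.coe_add]
      have := iso_two (s := 1) (t := 1) ha hb (by simpa using hab)
      simp only [one_pow, mul_one] at this
      exact wcon_of_iso this.symm)
  refine ⟨φ, fun l hl => ?_⟩
  induction l with
  | nil => simp
  | cons a l ih =>
    rw [nz_cons] at hl
    rw [cl_cons, map_add, AddUnits.val_add, hφ, wunit_val hl.1, ih hl.2, ← map_add,
      Multiset.coe_add]
    rfl

def hyp (F : Type*) [Field F] : ℕ → List F
  | 0 => []
  | n + 1 => 1 :: -1 :: hyp F n

omit [NeZero (2 : F)] in
theorem hyp_coe (n : ℕ) : n • hypM F = (hyp F n : Multiset F) := by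
  induction n with
  | zero => simp [hyp]
  | succ n ih => rw [succ_nsmul', ih, hypM, Multiset.coe_add]; rfl

omit [NeZero (2 : F)] in
theorem hyp_length (n : ℕ) : (hyp F n).length = 2 * n := by
  induction n with
  | zero => rfl
  | succ n ih => simp [hyp, ih]; ring

omit [NeZero (2 : F)] in
theorem hyp_nz (n : ℕ) : NZ (hyp F n) := by
  induction n with
  | zero => simp [hyp]
  | succ n ih => simp [hyp, ih]

omit [NeZero (2 : F)] in
theorem hyp_add (m n : ℕ) : hyp F (m + n) = hyp F m ++ hyp F n := by
  induction m with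
  | zero => simp [hyp]
  | succ m ih => rw [Nat.succ_add]; simp [hyp, ih]

theorem iso_of_cl_le {l m : List F} (hl : NZ l) (hm : NZ m) (h : cl l = cl m)
    (hlen : m.length ≤ l.length) : ∃ k, Iso l (hyp F k ++ m) := by
  obtain ⟨φ, hφ⟩ := exists_geom (F := F)
  have h1 := hφ l hl
  rw [h, hφ m hm] at h1
  obtain ⟨b, a, h2⟩ := (AddCon.eq _).1 h1
  rw [hyp_coe, hyp_coe, Multiset.coe_add, Multiset.coe_add, isoM_coe] at h2
  have h3 := h2.length_eq
  simp only [List.length_append, hyp_length] at h3
  obtain ⟨k, rfl⟩ : ∃ k, b = a + k := ⟨b - a, by omega⟩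
  refine ⟨k, Iso.cancel_left (hyp_nz a) ?_⟩
  refine ((Iso.comm _ _).trans h2.symm).trans ((Iso.comm _ _).trans ?_)
  rw [hyp_add, List.append_assoc]
  exact Iso.refl _

theorem iso_of_cl {l m : List F} (hl : NZ l) (hm : NZ m) (h : cl l = cl m)
    (hlen : m.length = l.length) : Iso l m := by
  obtain ⟨k, hk⟩ := iso_of_cl_le hl hm h hlen.le
  have := hk.length_eq
  simp only [List.length_append, hyp_length] at this
  obtain rfl : k = 0 := by omega
  exact hk

omit [NeZero (2 : F)] in
theorem exists_nz (l : List F) : ∃ m, NZ m ∧ cl m = cl l ∧ m.length ≤ l.length ∧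
    (¬ NZ l → m.length < l.length) := by
  induction l with
  | nil => exact ⟨[], by simp⟩
  | cons a l ih =>
    obtain ⟨m, h1, h2, h3, h4⟩ := ih
    by_cases ha : a = 0
    · exact ⟨m, h1, by simp [ha, h2], by simp; omega, fun _ => by simp; omega⟩
    · exact ⟨a :: m, by simp [ha, h1], by simp [h2], by simpa using h3,
        fun h => by simpa using h4 (by simpa [ha] using h)⟩

theorem isot_of_cl {l m : List F} (h : cl l = cl m) (hlen : m.length < l.length) : Isot l := by
  by_contra hl
  obtain ⟨m', h1, h2, h3, -⟩ := exists_nz m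
  obtain ⟨k, hk⟩ := iso_of_cl_le (NZ.of_not_isot hl) h1 (h.trans h2.symm) (by omega)
  have := hk.length_eq
  simp only [List.length_append, hyp_length] at this
  obtain ⟨k, rfl⟩ : ∃ j, k = j + 1 := ⟨k - 1, by omega⟩
  exact hl (hk.symm.isot (isot_cons.2 (Or.inl (rep_cons.2 ⟨1, 0, rep_zero _, by ring⟩))))

theorem Isot.shorter {l : List F} (h : Isot l) : ∃ m, cl m = cl l ∧ m.length < l.length := by
  by_cases hl : NZ l
  · obtain ⟨m, hm⟩ := isot_split hl h
    refine ⟨m, ?_, ?_⟩
    · rw [hm.cl_eq hl]; simp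
    · rw [hm.length_eq]; simp
  · obtain ⟨m, -, h2, -, h4⟩ := exists_nz l
    exact ⟨m, h2, h4 hl⟩

open Classical in
/-- anisotropic dimension -/
noncomputable def dm (w : W F) : ℕ :=
  Nat.find (p := fun n => ∃ l, cl l = w ∧ l.length = n)
    (by obtain ⟨l, h⟩ := cl_surj w; exact ⟨_, l, h, rfl⟩)

omit [NeZero (2 : F)] in
theorem dm_le (l : List F) : dm (cl l) ≤ l.length := by
  classical
  exact Nat.find_min' _ ⟨l, rfl, rfl⟩

omit [NeZero (2 : F)] in
theorem exists_dm (w : W F) : ∃ l, cl l = w ∧ l.length = dm w := by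
  classical
  exact Nat.find_spec (p := fun n => ∃ l, cl l = w ∧ l.length = n) _

theorem exists_an (w : W F) : ∃ l, cl l = w ∧ l.length = dm w ∧ ¬ Isot l := by
  obtain ⟨l, h1, h2⟩ := exists_dm w
  refine ⟨l, h1, h2, fun h => ?_⟩
  obtain ⟨m, h3, h4⟩ := h.shorter
  have := dm_le m
  rw [h3, h1] at this
  omega

theorem isot_iff {l : List F} : Isot l ↔ dm (cl l) < l.length := by
  constructor
  · intro h
    obtain ⟨m, h3, h4⟩ := h.shorter
    have := dm_le m
    rw [h3] at this
    omega
  · intro h
    obtain ⟨m, h1, h2⟩ := exists_dm (cl l)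
    exact isot_of_cl h1.symm (by omega)

theorem dm_eq {l : List F} (h : ¬ Isot l) : dm (cl l) = l.length :=
  le_antisymm (dm_le l) (not_lt.1 (mt isot_iff.2 h))

omit [NeZero (2 : F)] in
theorem dm_add (x y : W F) : dm (x + y) ≤ dm x + dm y := by
  obtain ⟨l, rfl, h⟩ := exists_dm x
  obtain ⟨m, rfl, h'⟩ := exists_dm y
  rw [← h, ← h', ← cl_append, ← List.length_append]
  exact dm_le _

omit [NeZero (2 : F)] in
theorem dm_g_mul (c : F) (x : W F) : dm (g c * x) ≤ dm x := by
  obtain ⟨l, rfl, h⟩ := exists_dm x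
  rw [← h, ← cl_map_mul]
  simpa using dm_le (l.map (c * ·))

omit [NeZero (2 : F)] in
theorem dm_neg (x : W F) : dm (-x) ≤ dm x := by
  simpa using dm_g_mul (-1) x

omit [NeZero (2 : F)] in
theorem dm_sub (x y : W F) : dm (x - y) ≤ dm x + dm y := by
  rw [sub_eq_add_neg]
  exact (dm_add _ _).trans (Nat.add_le_add_left (dm_neg y) _)

omit [NeZero (2 : F)] in
@[simp] theorem dm_zero : dm (0 : W F) = 0 := Nat.le_zero.1 (dm_le [])

omit [NeZero (2 : F)] in
theorem dm_eq_zero {w : W F} (h : dm w = 0) : w = 0 := by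
  obtain ⟨l, rfl, h'⟩ := exists_dm w
  rw [List.length_eq_zero_iff.1 (h'.trans h)]; rfl

omit [NeZero (2 : F)] in
theorem dm_mul (x y : W F) : dm (x * y) ≤ dm x * dm y := by
  obtain ⟨l, rfl, h⟩ := exists_dm x
  rw [← h]
  clear h
  induction l with
  | nil => simp
  | cons a l ih =>
    rw [cl_cons, add_mul, List.length_cons, Nat.succ_mul, add_comm (_ * _)]
    exact (dm_add _ _).trans (Nat.add_le_add ih (dm_g_mul _ _))

omit [NeZero (2 : F)] in
theorem dm_g (a : F) : dm (g a) ≤ 1 := by simpa using dm_le [a]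

theorem rep_congr {l m : List F} (hl : NZ l) (h : cl l = cl m) (hlen : m.length ≤ l.length)
    {c : F} (hc : Rep m c) : Rep l c := by
  by_cases hi : Isot l
  · exact hi.univ hl c
  · have h1 := dm_eq hi
    have h2 := dm_le m
    rw [← h] at h2
    have hm : ¬ Isot m := by rw [isot_iff, ← h]; omega
    exact (iso_of_cl hl (NZ.of_not_isot hm) h (by omega)).symm.rep hc

omit [NeZero (2 : F)] in
theorem rep_split' {l : List F} (hl : NZ l) {c : F} (h : Rep l c) (hc : c ≠ 0) :
    ∃ l', cl l = g c + cl l' ∧ l.length = l'.length + 1 ∧ NZ l' := by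
  obtain ⟨l', h1, h2⟩ := rep_split hl h hc
  exact ⟨l', by simpa using h2, by simpa using h1.length_eq, (nz_cons.1 (h1.nz hl)).2⟩

/-- two orthogonal vectors -/
theorem orth_split {l : List F} (hl : NZ l) (v w : Fin l.length → F) (hv : bf l v v ≠ 0)
    (hw : bf l w w ≠ 0) (hvw : bf l v w = 0) :
    ∃ l', cl l = g (bf l w w) + g (bf l v v) + cl l' ∧ l.length = l'.length + 2 := by
  obtain ⟨m, h1, h2⟩ := rep_split hl ⟨w, rfl⟩ hw
  obtain ⟨e, he⟩ := BIso.trans h1 (bf_cons _ m).symm
  obtain ⟨t, ht, ht1⟩ := exists_move (bprod (b1 (bf l w w)) (bf m))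
    (fun x y => by simp [bf_symm m x.2 y.2]; ring_nf) (e w) (1, 0)
    (by rw [he]; simp) (by rw [he]; exact hw)
  have k1 : (t (e v)).1 = 0 := by
    have := ht (e v) (e w)
    rw [he, hvw, ht1] at this
    simpa [hw] using this
  have k2 : Rep m (bf l v v) := ⟨(t (e v)).2, by
    have := ht (e v) (e v)
    rw [he] at this
    simpa [k1] using this⟩
  obtain ⟨l', h3, h4, -⟩ := rep_split' (nz_cons.1 (h1.nz hl)).2 k2 hv
  refine ⟨l', by rw [h2, cl_cons, h3, add_assoc], ?_⟩
  have := h1.length_eq
  simp at this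
  omega

/-- a totally isotropic subspace of dimension `k` splits off `k` hyperbolic planes -/
theorem dm_of_subspace (k : ℕ) {l : List F} (hl : NZ l) (U : Submodule F (Fin l.length → F))
    (hU : k ≤ Module.finrank F U) (h0 : ∀ v ∈ U, bf l v v = 0) :
    dm (cl l) + 2 * k ≤ l.length := by
  have h2 : (2 : F) ≠ 0 := NeZero.ne 2
  induction k generalizing l with
  | zero => simpa using dm_le l
  | succ k ih =>
    have hi : Isot l := by
      have : U ≠ ⊥ := by rintro rfl; simp at hU
      obtain ⟨v, hv, hv0⟩ := Submodule.exists_mem_ne_zero_of_ne_bot this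
      exact ⟨v, hv0, h0 v hv⟩
    obtain ⟨m, hm⟩ := isot_split hl hi
    have hmz : NZ m := by have := hm.nz hl; simp at this; exact this
    obtain ⟨e, he⟩ := BIso.trans hm ((bf_cons _ _).symm.trans
      ((BIso.refl (b1 1)).prod (bf_cons (-1) m).symm))
    let φ : U →ₗ[F] F := (LinearMap.fst F F _ - LinearMap.fst F F _ ∘ₗ LinearMap.snd F F _) ∘ₗ
      e.toLinearMap ∘ₗ U.subtype
    let π : U →ₗ[F] (Fin m.length → F) := (LinearMap.snd F F _ ∘ₗ LinearMap.snd F F _) ∘ₗ
      e.toLinearMap ∘ₗ U.subtype
    have hφ : ∀ u : U, φ u = (e u).1 - (e u).2.1 := fun _ => rfl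
    have hπ : ∀ u : U, π u = (e u).2.2 := fun _ => rfl
    have key : k ≤ Module.finrank F ((LinearMap.ker φ).map π) := by
      by_cases hz : φ = 0
      · let ψ : U →ₗ[F] F × ((LinearMap.ker φ).map π) := LinearMap.prod
          (LinearMap.fst F F _ ∘ₗ e.toLinearMap ∘ₗ U.subtype)
          (π.codRestrict _ fun u => Submodule.mem_map_of_mem (by simp [hz]))
        have hψ : Function.Injective ψ := by
          rw [← LinearMap.ker_eq_bot, LinearMap.ker_eq_bot']
          intro u hu
          have a1 : (e u).1 = 0 := congrArg Prod.fst hu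
          have a2 : (e u).2.2 = 0 := congrArg (fun z => (z.2 : Fin m.length → F)) hu
          have a3 : (e u).2.1 = 0 := by
            have := hφ u
            rw [hz, a1] at this
            simpa using this
          have : e u = 0 := Prod.ext a1 (Prod.ext a3 a2)
          simpa using this
        have := LinearMap.finrank_le_finrank_of_injective hψ
        simp only [Module.finrank_prod, Module.finrank_self] at this
        omega
      · have r1 := φ.finrank_range_add_finrank_ker
        have r2 : Module.finrank F (LinearMap.range φ) ≤ 1 := by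
          simpa using Submodule.finrank_le (LinearMap.range φ)
        have r3 : Module.finrank F ((LinearMap.ker φ).map π) =
            Module.finrank F (LinearMap.ker φ) := by
          rw [← LinearMap.range_domRestrict]
          apply LinearMap.finrank_range_of_inj
          suffices H : ∀ u ∈ LinearMap.ker φ, π u = 0 → u = 0 by
            intro x y hxy
            have := H (x.1 - y.1) (sub_mem x.2 y.2) (by rw [map_sub]; exact sub_eq_zero.2 hxy)
            exact Subtype.ext (sub_eq_zero.1 this)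
          intro u hu hu'
          have a2 : (e u).1 = (e u).2.1 := sub_eq_zero.1 ((hφ u).symm.trans hu)
          have a3 : (e u).2.2 = 0 := hu'
          have a1 : (e u).1 = 0 := by
            by_contra hne
            apply hz
            ext w
            have b1' := h0 _ (U.add_mem u.2 w.2)
            simp only [map_add, LinearMap.add_apply] at b1'
            rw [h0 u u.2, h0 w w.2, bf_symm l w u, ← he u w] at b1'
            simp only [bprod_apply, b1_apply, a3, ← a2, map_zero, LinearMap.zero_apply] at b1'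
            rw [hφ, LinearMap.zero_apply]
            have : 2 * (e u).1 * ((e w).1 - (e w).2.1) = 0 := by linear_combination b1'
            simpa [h2, hne] using this
          have : e u = 0 := Prod.ext a1 (Prod.ext (a2.symm.trans a1) a3)
          simpa using this
        omega
    have := ih hmz ((LinearMap.ker φ).map π) key (by
      rintro _ ⟨u, hu, rfl⟩
      have a1 := he u u
      rw [h0 u u.2] at a1
      have a2 : (e u).1 = (e u).2.1 := sub_eq_zero.1 ((hφ u).symm.trans hu)
      rw [hπ]
      simp only [bprod_apply, b1_apply, a2] at a1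
      linear_combination a1)
    rw [hm.cl_eq hl, hm.length_eq]
    simp only [cl_cons, g_neg, g_one, List.length_cons, add_neg_cancel_left]
    omega

end Pool.Agent.P.MP_8513f1_al
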